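import Mathlib
import Pool.Agent.J4H26.PC.Q0

set_option autoImplicit false

/-! Project PC, tools: sums over integer intervals, counting of bad points, the rate at time `w ^ 80`. -/

namespace Pool.Agent.J4H95.PC

open Finset Filter Real
open Pool.Agent.J4H39 (T od ex pb ns rn stP GK Cm DV th0 cnt Per id1 id1_pos id1_neg id1_nonneg id1_le_one)
open Pool.Agent.J4H26.PC
open Pool.Agent.H499R2.CO (rho rho_nonneg)

theorem Iv_iter {f : ℤ → ℝ} (hf : Iv f) (k : ℕ) (n : ℤ) : f (T^[k] n) = f n := by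
  induction k generalizing n with
  | zero => rfl
  | succ k ih => rw [Function.iterate_succ_apply, ih, hf.inv]

/-- the value is the same at a companion which has merged -/
theorem Iv_merge {f : ℤ → ℝ} (hf : Iv f) {s : ℤ × ℤ} {y y' : ℤ} (h : Pool.Agent.J4H39.Rel s y y') {k : ℕ}
    (h0 : rn stP k s y = (0, 0)) : f y' = f y := by
  have h1 := Pool.Agent.J4H39.merge_of_rn h h0
  rw [← Iv_iter hf k y, ← Iv_iter hf k y', h1.1]

theorem sum_Ico_diff {F : ℤ → ℝ} {B : ℝ} (hB : 0 ≤ B) (hF : ∀ n, |F n| ≤ B) (a b a' b' : ℤ) :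
    |∑ n ∈ Finset.Ico a b, F n - ∑ n ∈ Finset.Ico a' b', F n| ≤ B * (|(a : ℝ) - a'| + |(b : ℝ) - b'|) := by
  have e : ∑ n ∈ Finset.Ico a b, F n - ∑ n ∈ Finset.Ico a' b', F n =
      ∑ n ∈ Finset.Ico a b \ Finset.Ico a' b', F n - ∑ n ∈ Finset.Ico a' b' \ Finset.Ico a b, F n := by
    have h1 := Finset.sum_inter_add_sum_sdiff (Finset.Ico a b) (Finset.Ico a' b') F
    have h2 := Finset.sum_inter_add_sum_sdiff (Finset.Ico a' b') (Finset.Ico a b) F
    rw [Finset.inter_comm] at h2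
    linarith
  rw [e]
  have c1 : (#(Finset.Ico a b \ Finset.Ico a' b') : ℝ) ≤ (a' - a : ℤ).toNat + (b - b' : ℤ).toNat := by
    have : Finset.Ico a b \ Finset.Ico a' b' ⊆ Finset.Ico a a' ∪ Finset.Ico b' b := by
      intro n hn
      simp only [Finset.mem_sdiff, mem_Ico, mem_union] at hn ⊢
      omega
    have h3 := (Finset.card_le_card this).trans (Finset.card_union_le _ _)
    rw [Int.card_Ico, Int.card_Ico] at h3
    exact_mod_cast h3
  have c2 : (#(Finset.Ico a' b' \ Finset.Ico a b) : ℝ) ≤ (a - a' : ℤ).toNat + (b' - b : ℤ).toNat := by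
    have : Finset.Ico a' b' \ Finset.Ico a b ⊆ Finset.Ico a' a ∪ Finset.Ico b b' := by
      intro n hn
      simp only [Finset.mem_sdiff, mem_Ico, mem_union] at hn ⊢
      omega
    have h3 := (Finset.card_le_card this).trans (Finset.card_union_le _ _)
    rw [Int.card_Ico, Int.card_Ico] at h3
    exact_mod_cast h3
  have d1 : |∑ n ∈ Finset.Ico a b \ Finset.Ico a' b', F n| ≤ #(Finset.Ico a b \ Finset.Ico a' b') * B := by
    refine (abs_sum_le_sum_abs _ _).trans ?_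
    have := Finset.sum_le_card_nsmul (Finset.Ico a b \ Finset.Ico a' b') (fun n => |F n|) B (fun n _ => hF n)
    rwa [nsmul_eq_mul] at this
  have d2 : |∑ n ∈ Finset.Ico a' b' \ Finset.Ico a b, F n| ≤ #(Finset.Ico a' b' \ Finset.Ico a b) * B := by
    refine (abs_sum_le_sum_abs _ _).trans ?_
    have := Finset.sum_le_card_nsmul (Finset.Ico a' b' \ Finset.Ico a b) (fun n => |F n|) B (fun n _ => hF n)
    rwa [nsmul_eq_mul] at this
  have key : ((a' - a : ℤ).toNat : ℝ) + (b - b' : ℤ).toNat + ((a - a' : ℤ).toNat + (b' - b : ℤ).toNat) = 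
     |(a : ℝ) - a'| + |(b : ℝ) - b'| := by
    have : (((a' - a : ℤ).toNat : ℤ) + (b - b' : ℤ).toNat + ((a - a' : ℤ).toNat + (b' - b : ℤ).toNat)) = |a - a'| + |b - b'| := by
      rcases abs_cases (a - a') with h1 | h1 <;> rcases abs_cases (b - b') with h2 | h2 <;> omega
    exact_mod_cast this
  rw [← key]
  calc _ ≤ |∑ n ∈ Finset.Ico a b \ Finset.Ico a' b', F n| + |∑ n ∈ Finset.Ico a' b' \ Finset.Ico a b, F n| := abs_sub _ _
    _ ≤ #(Finset.Ico a b \ Finset.Ico a' b') * B + #(Finset.Ico a' b' \ Finset.Ico a b) * B := add_le_add d1 d2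
    _ ≤ _ := by nlinarith

theorem range_blocks (F : ℤ → ℝ) (q : ℕ) (N : ℤ) : ∑ n ∈ Finset.Ico N (N + q), F n = ∑ s ∈ range q, F (N + (s : ℕ)) := by
  induction q with
  | zero => simp
  | succ q ih =>
    rw [sum_range_succ, ← ih]
    have e1 : Finset.Ico N (N + (q + 1 : ℕ)) = insert (N + q) (Finset.Ico N (N + q)) := by
      ext n; simp only [mem_Ico, mem_insert]; push_cast; omega
    rw [e1, sum_insert (by simp)]; ring

theorem sum_blocks (F : ℤ → ℝ) (q : ℕ) (M N : ℤ) (h : M ≤ N) :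
    ∑ n ∈ Finset.Ico (q * M) (q * N), F n = ∑ m ∈ Finset.Ico M N, ∑ s ∈ range q, F (q * m + (s : ℕ)) := by
  induction N, h using Int.leInduction with
  | base => simp
  | succ N hN ih =>
    have e1 : Finset.Ico M (N + 1) = insert N (Finset.Ico M N) := by
      ext n; simp only [mem_Ico, mem_insert]; omega
    rw [e1, sum_insert (by simp), ← ih, ← range_blocks]
    have hq : (q : ℤ) * M ≤ q * N := mul_le_mul_of_nonneg_left hN (by positivity)
    have hq0 : (0 : ℤ) ≤ q := by positivity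
    have e2 : Finset.Ico ((q : ℤ) * M) (q * (N + 1)) = Finset.Ico ((q : ℤ) * N) (q * N + q) ∪ Finset.Ico ((q : ℤ) * M) (q * N) := by
      rw [mul_add, mul_one]
      ext n; simp only [mem_Ico, mem_union]; omega
    rw [e2, sum_union]
    rw [Finset.disjoint_left]
    intro n hn hn'
    simp only [mem_Ico] at hn hn'; omega

theorem sum_Ico_range (F : ℤ → ℝ) (a b : ℤ) : ∑ n ∈ Finset.Ico a b, F n = ∑ i ∈ range (b - a).toNat, F (a + (i : ℕ)) := by
  rcases le_total a b with h | h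
  · rw [← range_blocks]
    congr 2
    omega
  · rw [Finset.Ico_eq_empty (by omega), show (b - a).toNat = 0 by omega]; simp

theorem count_le {k : ℕ} {P : ℤ → Prop} (hP : Per k P) (a b : ℤ) :
    ∑ n ∈ Finset.Ico a b, id1 (P n) ≤ (((b - a).toNat : ℕ) + 2 ^ k : ℝ) * pb k P := by
  rw [sum_Ico_range]
  exact Pool.Agent.J4H39.cnt_upper hP a _

theorem toNat_le {κ X : ℝ} (hX : 0 ≤ X) : (((⌈κ * X + X⌉ - ⌈κ * X⌉).toNat : ℕ) : ℝ) ≤ X + 1 := by
  have h1 := Int.ceil_lt_add_one (κ * X + X)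
  have h2 := Int.le_ceil (κ * X)
  have h3 : ⌈κ * X⌉ ≤ ⌈κ * X + X⌉ := Int.ceil_mono (by linarith)
  have h4 : (((⌈κ * X + X⌉ - ⌈κ * X⌉).toNat : ℕ) : ℝ) = (⌈κ * X + X⌉ : ℝ) - ⌈κ * X⌉ := by
    have : (((⌈κ * X + X⌉ - ⌈κ * X⌉).toNat : ℕ) : ℤ) = ⌈κ * X + X⌉ - ⌈κ * X⌉ := Int.toNat_of_nonneg (by omega)
    exact_mod_cast this
  rw [h4]; linarith

theorem bad_sum {k : ℕ} {P : ℤ → Prop} (hP : Per k P) {κ X : ℝ} (hX : 1 ≤ X) (hk : (2 : ℝ) ^ k ≤ X) :
    ∑ n ∈ Finset.Ico ⌈κ * X⌉ ⌈κ * X + X⌉, id1 (P n) ≤ 3 * X * pb k P := by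
  refine (count_le hP _ _).trans ?_
  have := toNat_le (κ := κ) (X := X) (by linarith)
  have h0 := Pool.Agent.J4H39.pb_nonneg k P
  nlinarith

theorem per_mul {k : ℕ} {P : ℤ → Prop} (hP : Per k P) (D : ℕ) : Per k (fun m => P (3 ^ D * m)) := by
  intro x u
  simp only
  rw [show (3 : ℤ) ^ D * (x + 2 ^ k * u) = 3 ^ D * x + 2 ^ k * (3 ^ D * u) by ring]
  exact hP _ _

theorem pb_mul {k : ℕ} {P : ℤ → Prop} (hP : Per k P) (D : ℕ) : pb k (fun m => P (3 ^ D * m)) = pb k P := by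
  have := Pool.Agent.J4H39.pb_affine hP (Pool.Agent.J4H39.pow3_odd D) 0
  simpa using this

theorem pair_diff {f g : ℤ → ℝ} (hf : Iv f) (hg : Iv g) {s₁ s₂ : ℤ × ℤ} {y₁ y₂ z₁ z₂ : ℤ}
    (h1 : Pool.Agent.J4H39.Rel s₁ y₁ z₁) (h2 : Pool.Agent.J4H39.Rel s₂ y₂ z₂) (k : ℕ) :
    |f z₁ * g z₂ - f y₁ * g y₂| ≤ 2 * id1 (rn stP k s₁ y₁ ≠ (0, 0)) + 2 * id1 (rn stP k s₂ y₂ ≠ (0, 0)) := by
  have b : ∀ a b : ℤ, |f a * g b| ≤ 1 := by
    intro a b
    rw [abs_mul]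
    exact mul_le_one₀ (hf.bd a) (abs_nonneg _) (hg.bd b)
  have tri : |f z₁ * g z₂ - f y₁ * g y₂| ≤ 2 := by
    have := abs_sub (f z₁ * g z₂) (f y₁ * g y₂)
    have := b z₁ z₂
    have := b y₁ y₂
    linarith
  have n1 := id1_nonneg (rn stP k s₁ y₁ ≠ (0, 0))
  have n2 := id1_nonneg (rn stP k s₂ y₂ ≠ (0, 0))
  by_cases c1 : rn stP k s₁ y₁ = (0, 0)
  · by_cases c2 : rn stP k s₂ y₂ = (0, 0)
    · rw [Iv_merge hf h1 c1, Iv_merge hg h2 c2, sub_self, abs_zero]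
      positivity
    · rw [id1_pos (P := rn stP k s₂ y₂ ≠ (0, 0)) c2]; linarith
  · rw [id1_pos (P := rn stP k s₁ y₁ ≠ (0, 0)) c1]; linarith

/-- the rate at time `w ^ 80` -/
theorem rho_le {w : ℕ} (hw : 1 ≤ w) : rho (w ^ 80) ≤ 9 / (w : ℝ) ^ 39 := by
  have hw1 : (1 : ℝ) ≤ w := by exact_mod_cast hw
  have hw0 : (0 : ℝ) < w := by linarith
  unfold rho
  push_cast
  have h80 : (1 : ℝ) ≤ (w : ℝ) ^ 80 := one_le_pow₀ hw1
  have h1 : Real.log ((w : ℝ) ^ 80 + 1) ≤ 81 * (w : ℝ) ^ 2 := by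
    calc Real.log ((w : ℝ) ^ 80 + 1) ≤ Real.log (2 * (w : ℝ) ^ 80) := Real.log_le_log (by positivity) (by linarith)
      _ = Real.log 2 + 80 * Real.log w := by rw [Real.log_mul (by norm_num) (by positivity), Real.log_pow]; push_cast; ring
      _ ≤ 1 + 80 * w := by
        have a1 := Real.log_two_lt_d9
        have a2 := Real.log_le_sub_one_of_pos hw0
        linarith
      _ ≤ 81 * (w : ℝ) ^ 2 := by nlinarith
  rw [Real.sqrt_le_left (by positivity), div_pow, div_le_div_iff₀ (by positivity) (by positivity)]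
  calc Real.log ((w : ℝ) ^ 80 + 1) * ((w : ℝ) ^ 39) ^ 2 ≤ (81 * (w : ℝ) ^ 2) * ((w : ℝ) ^ 39) ^ 2 := by gcongr
    _ = 9 ^ 2 * (w : ℝ) ^ 80 := by ring

end Pool.Agent.J4H95.PC
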