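import Mathlib
import Pool.Agent.J4H95.PC.Base
import Pool.Agent.J4H39.V3

set_option autoImplicit false

/-! Project PC (A6): far from the diagonal the two exponents are independent. -/

namespace Pool.Agent.J4H95.PC

open Finset Filter Real
open Pool.Agent.J4H39 (T od ex pb ns rn stP stP_even stP_odd0 stP_odd1 th0 Per id1 id1_pos id1_neg id1_nonneg id1_le_one pr pr_le
  ck cd ex_pair ex_succ ex_zero ex_congr ex_mono ex_const ex_add ex_mul per_pr per_od per_rn per_ck od_succ' rn_succ'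
  ck_rel cd_add cd_le pb_id1)
open Pool.Agent.J4H26.PC

/-! The two operators. -/

/-- a step with unequal parities -/
noncomputable def Uo (φ : ℤ → ℤ → ℝ) (a d : ℤ) : ℝ := (φ (a + 1) (d - 1) + φ a (d + 1)) / 2

/-- a step with equal parities -/
noncomputable def Eo (φ : ℤ → ℤ → ℝ) (a d : ℤ) : ℝ := (φ (a + 1) d + φ a d) / 2

/-- `q` steps with unequal parities, `q'` steps with equal parities -/
noncomputable def Wo (q q' : ℕ) (φ : ℤ → ℤ → ℝ) : ℤ → ℤ → ℝ := Uo^[q] (Eo^[q'] φ)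

theorem UE (φ : ℤ → ℤ → ℝ) : Uo (Eo φ) = Eo (Uo φ) := by
  funext a d
  unfold Uo Eo
  rw [show a + 1 + 1 = a + 2 by ring]
  ring_nf

theorem Wo_U (q q' : ℕ) (φ : ℤ → ℤ → ℝ) : Wo (q + 1) q' φ = Uo (Wo q q' φ) := by
  unfold Wo
  rw [Function.iterate_succ_apply']

theorem Wo_E (q q' : ℕ) (φ : ℤ → ℤ → ℝ) : Wo q (q' + 1) φ = Eo (Wo q q' φ) := by
  induction q with
  | zero => unfold Wo; simp only [Function.iterate_zero, id]; rw [Function.iterate_succ_apply']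
  | succ q ih => rw [Wo_U, ih, UE, Wo_U]

theorem Wo_zero (φ : ℤ → ℤ → ℝ) : Wo 0 0 φ = φ := rfl

/-- induction over the words -/
theorem Wo_ind {φ : ℤ → ℤ → ℝ} (P : ℕ → (ℤ → ℤ → ℝ) → Prop) (h0 : P 0 φ) (hU : ∀ m ψ, P m ψ → P (m + 1) (Uo ψ))
    (hE : ∀ m ψ, P m ψ → P (m + 1) (Eo ψ)) (q q' : ℕ) : P (q + q') (Wo q q' φ) := by
  induction q with
  | zero =>
    rw [zero_add]
    induction q' with
    | zero => exact h0
    | succ q' ih => rw [Wo_E]; exact hE _ _ ih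
  | succ q ih => rw [Wo_U, show q + 1 + q' = q + q' + 1 by ring]; exact hU _ _ ih

theorem Wo_bd {φ : ℤ → ℤ → ℝ} (h : ∀ a d, |φ a d| ≤ 1) (q q' : ℕ) : ∀ a d, |Wo q q' φ a d| ≤ 1 := by
  apply Wo_ind (fun _ ψ => ∀ a d, |ψ a d| ≤ 1) h
  · intro m ψ hψ a d
    have h1 := abs_le.1 (hψ (a + 1) (d - 1))
    have h2 := abs_le.1 (hψ a (d + 1))
    unfold Uo
    rw [abs_le]
    constructor <;> linarith
  · intro m ψ hψ a d
    have h1 := abs_le.1 (hψ (a + 1) d)
    have h2 := abs_le.1 (hψ a d)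
    unfold Eo
    rw [abs_le]
    constructor <;> linarith

/-- the second moments -/
noncomputable def ff (L : ℕ) (a₀ d₀ : ℤ) (m : ℕ) (a d : ℤ) : ℝ :=
  ((2 * ((a : ℝ) - a₀) + m - 2 * L) ^ 2 + m) / 4 + ((d : ℝ) - d₀) ^ 2 + m

theorem Wo_disp {φ : ℤ → ℤ → ℝ} {v α β : ℝ} {L : ℕ} {a₀ d₀ : ℤ} (hβ : 0 ≤ β)
    (h : ∀ a d, |φ a d - v| ≤ α + β * ff L a₀ d₀ 0 a d) (q q' : ℕ) :
    ∀ a d, |Wo q q' φ a d - v| ≤ α + β * ff L a₀ d₀ (q + q') a d := by
  apply Wo_ind (fun m ψ => ∀ a d, |ψ a d - v| ≤ α + β * ff L a₀ d₀ m a d) h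
  · intro m ψ hψ a d
    have h1 := abs_le.1 (hψ (a + 1) (d - 1))
    have h2 := abs_le.1 (hψ a (d + 1))
    have e : (ff L a₀ d₀ m (a + 1) (d - 1) + ff L a₀ d₀ m a (d + 1)) / 2 = ff L a₀ d₀ (m + 1) a d := by
      unfold ff; push_cast; ring
    have e2 : β * ff L a₀ d₀ (m + 1) a d = (β * ff L a₀ d₀ m (a + 1) (d - 1) + β * ff L a₀ d₀ m a (d + 1)) / 2 := by
      rw [← e]; ring
    unfold Uo
    rw [e2, abs_le]
    constructor <;> linarith
  · intro m ψ hψ a d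
    have h1 := abs_le.1 (hψ (a + 1) d)
    have h2 := abs_le.1 (hψ a d)
    have e : (ff L a₀ d₀ m (a + 1) d + ff L a₀ d₀ m a d) / 2 ≤ ff L a₀ d₀ (m + 1) a d := by
      unfold ff; push_cast; nlinarith
    have e2 : (β * ff L a₀ d₀ m (a + 1) d + β * ff L a₀ d₀ m a d) / 2 ≤ β * ff L a₀ d₀ (m + 1) a d := by
      have := mul_le_mul_of_nonneg_left e hβ
      linarith
    unfold Eo
    rw [abs_le]
    constructor <;> linarith

/-! First step analysis. -/

theorem ex_first (n : ℕ) (G : ℕ → ℤ → ℝ) (hG : ∀ p, Per n (G p)) :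
    ex (n + 1) (fun y => G (pr 0 y) (T y)) = (ex n (G 0) + ex n (G 1)) / 2 := by
  have h := ex_pair 1 n (fun y z => G (pr 0 y) z) (fun z => by
    intro x u
    simp only
    rw [per_pr (show 0 < 1 by norm_num) x u]) (fun y => hG _)
  rw [add_comm n 1]
  simp only [Function.iterate_one] at h
  rw [h]
  have e := ex_succ 0 (fun y => ex n (G (pr 0 y)))
  rw [zero_add] at e
  rw [e, ex_zero]
  have p0 : pr 0 (0 : ℤ) = 0 := by unfold pr; simp
  have p1 : pr 0 ((0 : ℤ) + 2 ^ 0) = 1 := by unfold pr; simp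
  rw [p0, p1]

theorem ck_succ' (n : ℕ) (s : ℤ × ℤ) (y : ℤ) :
    ck (n + 1) s y = (if s.2 % 2 = 0 then 0 else 1) + ck n (stP s (pr 0 y)) (T y) := by
  induction n with
  | zero => simp [ck, rn]
  | succ n ih =>
    rw [Pool.Agent.J4H39.ck_succ, ih, Pool.Agent.J4H39.ck_succ, add_comm n 1, rn_succ']
    ring

theorem cd_succ' (n : ℕ) (x y : ℤ) : cd (n + 1) x y = (if pr 0 x = pr 0 y then 0 else 1) + cd n (T x) (T y) := by
  rw [add_comm n 1, cd_add]
  simp [cd]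

theorem ck_le (n : ℕ) (s : ℤ × ℤ) (y : ℤ) : ck n s y ≤ n := by
  have := Pool.Agent.J4H39.ck_le_add s y (Nat.zero_le n)
  simpa [ck] using this

/-! The dependent pair. -/

/-- the dependent pair -/
noncomputable def Jd (φ : ℤ → ℤ → ℝ) (n : ℕ) (a : ℤ) (s : ℤ × ℤ) : ℝ := ex n (fun y => φ (a + od n y) (rn stP n s y).1)

/-- the probability of a bad clock -/
noncomputable def Bd (n q q' : ℕ) (s : ℤ × ℤ) : ℝ := ex n (fun y => id1 (q < ck n s y ∨ q' + ck n s y < n))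

theorem ex_id1_nonneg (n : ℕ) (P : ℤ → Prop) : 0 ≤ ex n (fun y => id1 (P y)) :=
  Pool.Agent.J4H39.ex_nonneg fun _ => id1_nonneg _

theorem ex_abs_le {n : ℕ} {f : ℤ → ℝ} {B : ℝ} (h : ∀ y, |f y| ≤ B) : |ex n f| ≤ B := by
  rw [abs_le]
  constructor
  · have := ex_mono (j := n) (f := fun _ => -B) (g := f) (fun y => (abs_le.1 (h y)).1)
    rwa [ex_const] at this
  · have := ex_mono (j := n) (f := f) (g := fun _ => B) (fun y => (abs_le.1 (h y)).2)
    rwa [ex_const] at this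

theorem Jd_bd {φ : ℤ → ℤ → ℝ} (h : ∀ a d, |φ a d| ≤ 1) (n : ℕ) (a : ℤ) (s : ℤ × ℤ) : |Jd φ n a s| ≤ 1 :=
  ex_abs_le fun _ => h _ _

theorem Jd_succ (φ : ℤ → ℤ → ℝ) (n : ℕ) (a : ℤ) (s : ℤ × ℤ) :
    Jd φ (n + 1) a s = (Jd φ n a (stP s 0) + Jd φ n (a + 1) (stP s 1)) / 2 := by
  have h := ex_first n (fun p z => φ (a + p + od n z) (rn stP n (stP s p) z).1) (by
    intro p x u
    simp only
    rw [per_od (le_refl n) x u, per_rn stP (stP s p) (le_refl n) x u])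
  unfold Jd
  push_cast at h
  rw [add_zero] at h
  rw [← h]
  apply ex_congr
  intro y
  rw [od_succ', add_comm n 1, rn_succ']
  push_cast
  rw [add_assoc]

theorem Bd_succ (n q q' : ℕ) (s : ℤ × ℤ) : Bd (n + 1) q q' s =
    (ex n (fun z => id1 (q < (if s.2 % 2 = 0 then 0 else 1) + ck n (stP s 0) z ∨
      q' + ((if s.2 % 2 = 0 then 0 else 1) + ck n (stP s 0) z) < n + 1)) +
     ex n (fun z => id1 (q < (if s.2 % 2 = 0 then 0 else 1) + ck n (stP s 1) z ∨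
      q' + ((if s.2 % 2 = 0 then 0 else 1) + ck n (stP s 1) z) < n + 1))) / 2 := by
  have h := ex_first n (fun p z => id1 (q < (if s.2 % 2 = 0 then 0 else 1) + ck n (stP s p) z ∨
      q' + ((if s.2 % 2 = 0 then 0 else 1) + ck n (stP s p) z) < n + 1)) (by
    intro p x u
    simp only
    rw [per_ck (stP s p) (le_refl n) x u])
  rw [← h]
  unfold Bd
  apply ex_congr
  intro y
  rw [ck_succ']

theorem dep_main {φ ψ : ℤ → ℤ → ℝ} (hφ : ∀ a d, |φ a d| ≤ 1) (hψ : ∀ a d, |ψ a d| ≤ 1) {err : ℝ} (herr : 0 ≤ err) {M : ℕ}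
    (h0 : ∀ q q', q + q' = M → ∀ a d, |φ a d - Wo q q' ψ a d| ≤ err) :
    ∀ (n : ℕ) (a : ℤ) (s : ℤ × ℤ) (q q' : ℕ), q + q' = n + M → |Jd φ n a s - Wo q q' ψ a s.1| ≤ err + 2 * Bd n q q' s := by
  intro n
  induction n with
  | zero =>
    intro a s q q' hq
    have e : Jd φ 0 a s = φ a s.1 := by
      unfold Jd; rw [ex_zero]; simp [od, rn]
    rw [e]
    have h1 := h0 q q' (by omega) a s.1
    have h2 : 0 ≤ Bd 0 q q' s := ex_id1_nonneg _ _
    linarith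
  | succ n ih =>
    intro a s q q' hq
    have triv : Bd (n + 1) q q' s = 1 → |Jd φ (n + 1) a s - Wo q q' ψ a s.1| ≤ err + 2 * Bd (n + 1) q q' s := by
      intro hB
      rw [hB]
      have h1 := abs_sub (Jd φ (n + 1) a s) (Wo q q' ψ a s.1)
      have h2 := Jd_bd hφ (n + 1) a s
      have h3 := Wo_bd hψ q q' a s.1
      linarith
    by_cases hs : s.2 % 2 = 0
    · rcases Nat.eq_zero_or_pos q' with hq0 | hq0
      · apply triv
        rw [Bd_succ]
        simp only [if_pos hs, zero_add]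
        have : ∀ s' z, id1 (q < ck n s' z ∨ q' + ck n s' z < n + 1) = 1 := by
          intro s' z
          apply id1_pos
          right
          have := ck_le n s' z
          omega
        simp only [this, ex_const]
        norm_num
      · obtain ⟨r, rfl⟩ : ∃ r, q' = r + 1 := ⟨q' - 1, by omega⟩
        have i0 := ih a (stP s 0) q r (by omega)
        have i1 := ih (a + 1) (stP s 1) q r (by omega)
        rw [stP_even hs (by norm_num)] at i0 i1
        have eB : Bd (n + 1) q (r + 1) s = (Bd n q r (stP s 0) + Bd n q r (stP s 1)) / 2 := by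
          rw [Bd_succ]
          simp only [if_pos hs, zero_add]
          have : ∀ s' z, id1 (q < ck n s' z ∨ r + 1 + ck n s' z < n + 1) = id1 (q < ck n s' z ∨ r + ck n s' z < n) := by
            intro s' z
            congr 1
            apply propext
            omega
          simp only [this]
          rfl
        rw [eB, Jd_succ, Wo_E]
        unfold Eo
        rw [abs_le] at i0 i1 ⊢
        constructor <;> linarith
    · rcases Nat.eq_zero_or_pos q with hq0 | hq0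
      · apply triv
        rw [Bd_succ]
        simp only [if_neg hs]
        have : ∀ s' z, id1 (q < 1 + ck n s' z ∨ q' + (1 + ck n s' z) < n + 1) = 1 := by
          intro s' z
          apply id1_pos
          left
          omega
        simp only [this, ex_const]
        norm_num
      · obtain ⟨r, rfl⟩ : ∃ r, q = r + 1 := ⟨q - 1, by omega⟩
        have i0 := ih a (stP s 0) r q' (by omega)
        have i1 := ih (a + 1) (stP s 1) r q' (by omega)
        rw [stP_odd0 hs] at i0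
        rw [stP_odd1 hs] at i1
        have eB : Bd (n + 1) (r + 1) q' s = (Bd n r q' (stP s 0) + Bd n r q' (stP s 1)) / 2 := by
          rw [Bd_succ]
          simp only [if_neg hs]
          have : ∀ s' z, id1 (r + 1 < 1 + ck n s' z ∨ q' + (1 + ck n s' z) < n + 1) = id1 (r < ck n s' z ∨ q' + ck n s' z < n) := by
            intro s' z
            congr 1
            apply propext
            omega
          simp only [this]
          rfl
        rw [eB, Jd_succ, Wo_U]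
        unfold Uo
        rw [abs_le] at i0 i1 ⊢
        constructor <;> linarith

/-! The independent pair. -/

/-- the independent pair -/
noncomputable def Ji (φ : ℤ → ℤ → ℝ) (n : ℕ) (a d : ℤ) : ℝ :=
  ex n (fun y => ex n (fun y' => φ (a + od n y) (d + od n y' - od n y)))

/-- the probability of a bad clock -/
noncomputable def Bi (n q q' : ℕ) : ℝ := ex n (fun y => ex n (fun y' => id1 (q < cd n y y' ∨ q' + cd n y y' < n)))

theorem Ji_bd {φ : ℤ → ℤ → ℝ} (h : ∀ a d, |φ a d| ≤ 1) (n : ℕ) (a d : ℤ) : |Ji φ n a d| ≤ 1 :=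
  ex_abs_le fun _ => ex_abs_le fun _ => h _ _

theorem ex_first2 (n : ℕ) (G : ℕ → ℕ → ℤ → ℤ → ℝ) (h1 : ∀ p p' z, Per n (G p p' z))
    (h2 : ∀ p p' z', Per n (fun z => G p p' z z')) :
    ex (n + 1) (fun y => ex (n + 1) (fun y' => G (pr 0 y) (pr 0 y') (T y) (T y'))) =
      ((ex n (fun z => ex n (G 0 0 z)) + ex n (fun z => ex n (G 0 1 z))) +
       (ex n (fun z => ex n (G 1 0 z)) + ex n (fun z => ex n (G 1 1 z)))) / 4 := by
  have e1 : ∀ y, ex (n + 1) (fun y' => G (pr 0 y) (pr 0 y') (T y) (T y')) =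
      (ex n (G (pr 0 y) 0 (T y)) + ex n (G (pr 0 y) 1 (T y))) / 2 := by
    intro y
    exact ex_first n (fun p' z' => G (pr 0 y) p' (T y) z') (fun p' => h1 _ _ _)
  rw [ex_congr e1]
  have e2 := ex_first n (fun p z => (ex n (G p 0 z) + ex n (G p 1 z)) / 2) (by
    intro p x u
    simp only
    have : ∀ p', ex n (G p p' (x + 2 ^ n * u)) = ex n (G p p' x) := by
      intro p'
      apply ex_congr
      intro z'
      exact h2 p p' z' x u
    rw [this, this])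
  rw [e2]
  have e3 : ∀ p, ex n (fun z => (ex n (G p 0 z) + ex n (G p 1 z)) / 2) =
      (ex n (fun z => ex n (G p 0 z)) + ex n (fun z => ex n (G p 1 z))) / 2 := by
    intro p
    have : (fun z => (ex n (G p 0 z) + ex n (G p 1 z)) / 2) = fun z => (1 / 2) * (ex n (G p 0 z) + ex n (G p 1 z)) := by
      funext z; ring
    rw [this, ex_mul, ex_add]; ring
  rw [e3, e3]
  ring

theorem Ji_succ (φ : ℤ → ℤ → ℝ) (n : ℕ) (a d : ℤ) :
    Ji φ (n + 1) a d = ((Ji φ n a d + Ji φ n a (d + 1)) + (Ji φ n (a + 1) (d - 1) + Ji φ n (a + 1) d)) / 4 := by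
  have h := ex_first2 n (fun p p' z z' => φ (a + p + od n z) (d + p' - p + od n z' - od n z)) (by
    intro p p' z x u
    simp only
    rw [per_od (le_refl n) x u]) (by
    intro p p' z' x u
    simp only
    rw [per_od (le_refl n) x u])
  unfold Ji
  push_cast at h
  simp only [add_zero, sub_zero] at h
  rw [show d + 1 - 1 = d by ring] at h
  rw [← h]
  apply ex_congr
  intro y
  apply ex_congr
  intro y'
  rw [od_succ', od_succ']
  push_cast
  congr 1 <;> ring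

theorem Bi_succ (n q q' : ℕ) : Bi (n + 1) q q' =
    ((ex n (fun z => ex n (fun z' => id1 (q < cd n z z' ∨ q' + cd n z z' < n + 1)))) +
     (ex n (fun z => ex n (fun z' => id1 (q < 1 + cd n z z' ∨ q' + (1 + cd n z z') < n + 1))))) / 2 := by
  have h := ex_first2 n (fun p p' z z' => id1 (q < (if p = p' then 0 else 1) + cd n z z' ∨
      q' + ((if p = p' then 0 else 1) + cd n z z') < n + 1)) (by
    intro p p' z x u
    simp only
    rw [Pool.Agent.J4H39.cd_periodic_right n (le_refl n) z x u]) (by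
    intro p p' z' x u
    simp only
    rw [Pool.Agent.J4H39.cd_periodic_left n (le_refl n) x z' u])
  unfold Bi
  have e : ∀ y y', id1 (q < cd (n + 1) y y' ∨ q' + cd (n + 1) y y' < n + 1) =
    id1 (q < (if pr 0 y = pr 0 y' then 0 else 1) + cd n (T y) (T y') ∨
      q' + ((if pr 0 y = pr 0 y' then 0 else 1) + cd n (T y) (T y')) < n + 1) := by
    intro y y'
    rw [cd_succ']
  rw [ex_congr (fun y => ex_congr (fun y' => e y y')), h]
  simp only [if_true, zero_add, show ((0 : ℕ) = 1) = False by simp, show ((1 : ℕ) = 0) = False by simp, if_false]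
  ring

theorem ind_main {φ ψ : ℤ → ℤ → ℝ} (hφ : ∀ a d, |φ a d| ≤ 1) (hψ : ∀ a d, |ψ a d| ≤ 1) {err : ℝ} (herr : 0 ≤ err) {M : ℕ}
    (h0 : ∀ q q', q + q' = M → ∀ a d, |φ a d - Wo q q' ψ a d| ≤ err) :
    ∀ (n : ℕ) (a d : ℤ) (q q' : ℕ), q + q' = n + M → |Ji φ n a d - Wo q q' ψ a d| ≤ err + 2 * Bi n q q' := by
  intro n
  induction n with
  | zero =>
    intro a d q q' hq
    have e : Ji φ 0 a d = φ a d := by
      unfold Ji; rw [ex_zero, ex_zero]; simp [od]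
    rw [e]
    have h1 := h0 q q' (by omega) a d
    have h2 : 0 ≤ Bi 0 q q' := Pool.Agent.J4H39.ex_nonneg fun _ => ex_id1_nonneg _ _
    linarith
  | succ n ih =>
    intro a d q q' hq
    -- equal parities
    have hE : |(Ji φ n a d + Ji φ n (a + 1) d) / 2 - Wo q q' ψ a d| ≤ err +
        2 * ex n (fun z => ex n (fun z' => id1 (q < cd n z z' ∨ q' + cd n z z' < n + 1))) := by
      rcases Nat.eq_zero_or_pos q' with hq0 | hq0
      · have : ∀ z z', id1 (q < cd n z z' ∨ q' + cd n z z' < n + 1) = 1 := by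
          intro z z'
          apply id1_pos
          right
          have := cd_le n z z'
          omega
        simp only [this, ex_const]
        have h1 := abs_le.1 (Ji_bd hφ n a d)
        have h2 := abs_le.1 (Ji_bd hφ n (a + 1) d)
        have h3 := abs_le.1 (Wo_bd hψ q q' a d)
        rw [abs_le]
        constructor <;> linarith
      · obtain ⟨r, rfl⟩ : ∃ r, q' = r + 1 := ⟨q' - 1, by omega⟩
        have i0 := ih a d q r (by omega)
        have i1 := ih (a + 1) d q r (by omega)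
        have : ∀ z z', id1 (q < cd n z z' ∨ r + 1 + cd n z z' < n + 1) = id1 (q < cd n z z' ∨ r + cd n z z' < n) := by
          intro z z'
          congr 1
          apply propext
          omega
        simp only [this]
        change _ ≤ err + 2 * Bi n q r
        rw [Wo_E]
        unfold Eo
        rw [abs_le] at i0 i1 ⊢
        constructor <;> linarith
    -- unequal parities
    have hU : |(Ji φ n (a + 1) (d - 1) + Ji φ n a (d + 1)) / 2 - Wo q q' ψ a d| ≤ err +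
        2 * ex n (fun z => ex n (fun z' => id1 (q < 1 + cd n z z' ∨ q' + (1 + cd n z z') < n + 1))) := by
      rcases Nat.eq_zero_or_pos q with hq0 | hq0
      · have : ∀ z z', id1 (q < 1 + cd n z z' ∨ q' + (1 + cd n z z') < n + 1) = 1 := by
          intro z z'
          apply id1_pos
          left
          omega
        simp only [this, ex_const]
        have h1 := abs_le.1 (Ji_bd hφ n (a + 1) (d - 1))
        have h2 := abs_le.1 (Ji_bd hφ n a (d + 1))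
        have h3 := abs_le.1 (Wo_bd hψ q q' a d)
        rw [abs_le]
        constructor <;> linarith
      · obtain ⟨r, rfl⟩ : ∃ r, q = r + 1 := ⟨q - 1, by omega⟩
        have i0 := ih (a + 1) (d - 1) r q' (by omega)
        have i1 := ih a (d + 1) r q' (by omega)
        have : ∀ z z', id1 (r + 1 < 1 + cd n z z' ∨ q' + (1 + cd n z z') < n + 1) = id1 (r < cd n z z' ∨ q' + cd n z z' < n) := by
          intro z z'
          congr 1
          apply propext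
          omega
        simp only [this]
        change _ ≤ err + 2 * Bi n r q'
        rw [Wo_U]
        unfold Uo
        rw [abs_le] at i0 i1 ⊢
        constructor <;> linarith
    rw [Bi_succ, Ji_succ]
    rw [abs_le] at hE hU ⊢
    constructor <;> linarith

/-! Numerical facts. -/

theorem log_small : ∀ᶠ w : ℕ in atTop, (w : ℝ) ^ 200 ≤ Real.exp (w / 50) := by
  have h := (Real.isLittleO_log_id_atTop.bound (c := 1 / 10000) (by norm_num))
  have h2 := tendsto_natCast_atTop_atTop.eventually h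
  filter_upwards [h2, eventually_ge_atTop 1] with w hw hw1
  have hw1' : (1 : ℝ) ≤ w := by exact_mod_cast hw1
  have h3 : Real.log w ≤ 1 / 10000 * w := by
    have : ‖Real.log (w : ℝ)‖ = Real.log w := by rw [Real.norm_eq_abs, abs_of_nonneg (Real.log_nonneg hw1')]
    rw [this] at hw
    have e : ‖id (w : ℝ)‖ = w := by simp
    rw [e] at hw
    exact hw
  have h4 : (w : ℝ) ^ 200 = Real.exp (200 * Real.log w) := by
    rw [show (200 : ℝ) * Real.log w = ((200 : ℕ) : ℝ) * Real.log w by norm_num, ← Real.log_pow, Real.exp_log (by positivity)]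
  rw [h4]
  apply Real.exp_le_exp.2
  linarith

/-- the error of the clock of the dependent pair -/
theorem Bd_le {w j i : ℕ} (hw : 101 ≤ w) (hj1 : w ^ 80 ≤ j) (hj2 : j ≤ 2 * w ^ 80) (hi1 : w ^ 42 ≤ i) (hi2 : i ≤ w ^ 48) :
    Bd (48 * j) (24 * j + w ^ 76) (24 * j + w ^ 76) ((i : ℤ), 0) ≤
      2 * ((((48 * j : ℕ) : ℝ) + 1) * ((48 * j : ℕ) / (4 * ((4 ^ w : ℕ) : ℝ)) +
        2 * Real.exp (-((((w ^ 41 : ℕ) : ℝ)) ^ 2 / (2 * ((48 * j : ℕ) : ℝ)))))) +
      (((48 * j : ℕ) : ℝ) + 1) * (28 * (((48 * j : ℕ) : ℝ) + 1) ^ 2 * (4 ^ w : ℝ) ^ 2 *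
        Real.exp (-((1 / (w : ℝ) ^ 5 * ((w ^ 20 : ℕ) : ℝ)) ^ 2 / (2 * ((w ^ 20 : ℕ) : ℝ))))) := by
  have hw0 : 0 < w := by omega
  have hwr : (101 : ℝ) ≤ w := by exact_mod_cast hw
  have hwp : (0 : ℝ) < w := by linarith
  have P : Pool.Agent.J4H39.Pq (48 * j) i 0 (w ^ 20) (w ^ 41) (4 * w ^ 48) := by
    refine ⟨Nat.one_le_pow _ _ hw0, ?_, ?_, ?_⟩
    · have : w ^ 48 ≤ w ^ 80 := Nat.pow_le_pow_right hw0 (by norm_num)
      omega
    · have h1 : w ^ 41 ≤ w ^ 48 := Nat.pow_le_pow_right hw0 (by norm_num)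
      calc 3 ^ (4 * w ^ 48 + w ^ 41) * (4 ^ 0) ^ 2 = 3 ^ (4 * w ^ 48 + w ^ 41) := by ring
        _ ≤ 3 ^ (4 * w ^ 48 + w ^ 48) := Nat.pow_le_pow_right (by norm_num) (by omega)
        _ = 243 ^ (w ^ 48) := by rw [show 4 * w ^ 48 + w ^ 48 = 5 * w ^ 48 by ring, pow_mul]; norm_num
        _ ≤ 256 ^ (w ^ 48) := Nat.pow_le_pow_left (by norm_num) _
        _ = 4 ^ (4 * w ^ 48) := by rw [pow_mul]; norm_num
    · have h1 : w ^ 41 ≤ w ^ 48 := Nat.pow_le_pow_right hw0 (by norm_num)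
      calc 3 ^ (i + w ^ 41) ≤ 3 ^ (2 * w ^ 48) := Nat.pow_le_pow_right (by norm_num) (by omega)
        _ = 9 ^ (w ^ 48) := by rw [pow_mul]; norm_num
        _ ≤ 16 ^ (w ^ 48) := Nat.pow_le_pow_left (by norm_num) _
        _ = 2 ^ (4 * w ^ 48) := by rw [pow_mul]; norm_num
  set t := 48 * j with ht
  have ht1 : 1 ≤ t := by
    have : 1 ≤ w ^ 80 := Nat.one_le_pow _ _ hw0
    omega
  set L : ℕ := 4 ^ w with hL
  have hL1 : 1 ≤ L := Nat.one_le_pow _ _ (by norm_num)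
  set GdP : ℤ → Prop := fun n => ¬ Pool.Agent.J4H39.Gd t L ((w ^ 41 : ℕ) : ℝ) n with hGdP
  have hperG : Per t GdP := by
    intro x u
    rw [hGdP]
    simp only
    rw [Pool.Agent.J4H39.per_Gd t L ((w ^ 41 : ℕ) : ℝ) x u]
  -- the inclusion
  have hinc : ∀ y, id1 (24 * j + w ^ 76 < ck t ((i : ℤ), 0) y ∨ 24 * j + w ^ 76 + ck t ((i : ℤ), 0) y < t) ≤
      id1 (GdP y) + (id1 (GdP (3 ^ i * y + 0)) + id1 (Pool.Agent.J4H39.BLp i 0 (4 * w ^ 48) t (w ^ 20) w (1 / (w : ℝ) ^ 5) y)) := by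
    intro y
    have n1 := id1_nonneg (GdP y)
    have n2 := id1_nonneg (GdP (3 ^ i * y + 0))
    have n3 := id1_nonneg (Pool.Agent.J4H39.BLp i 0 (4 * w ^ 48) t (w ^ 20) w (1 / (w : ℝ) ^ 5) y)
    have n4 := id1_le_one (24 * j + w ^ 76 < ck t ((i : ℤ), 0) y ∨ 24 * j + w ^ 76 + ck t ((i : ℤ), 0) y < t)
    by_cases c1 : GdP y
    · rw [id1_pos c1]; linarith
    by_cases c2 : GdP (3 ^ i * y + 0)
    · rw [id1_pos c2]; linarith
    by_cases c3 : Pool.Agent.J4H39.BLp i 0 (4 * w ^ 48) t (w ^ 20) w (1 / (w : ℝ) ^ 5) y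
    · rw [id1_pos c3]; linarith
    have g1 : Pool.Agent.J4H39.Gd t L ((w ^ 41 : ℕ) : ℝ) y := not_not.1 c1
    have g2 : Pool.Agent.J4H39.Gd t L ((w ^ 41 : ℕ) : ℝ) (Pool.Agent.J4H39.yy i 0 y) := not_not.1 c2
    have hcl := Pool.Agent.J4H39.clock_of (l := w) P (ε := 1 / (w : ℝ) ^ 5) (by positivity) (r := 0) (n := y) (by simp) g1 g2 c3
      (j := t) P.hst le_rfl (by
        intro i' _ hi'
        have a1 := Pool.Agent.J4H39.od_up g1 hi'.le
        have a2 := Pool.Agent.J4H39.od_lo g1 hi'.le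
        have a3 := Pool.Agent.J4H39.od_up g2 hi'.le
        have a4 := Pool.Agent.J4H39.od_lo g2 hi'.le
        have a5 : w ^ 41 + w ^ 20 < w ^ 42 := by
          calc w ^ 41 + w ^ 20 ≤ w ^ 41 + w ^ 41 := by
                have := Nat.pow_le_pow_right hw0 (show 20 ≤ 41 by norm_num)
                omega
            _ = 2 * w ^ 41 := by ring
            _ < w * w ^ 41 := by
                apply Nat.mul_lt_mul_of_pos_right (by omega)
                positivity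
            _ = w ^ 42 := by ring
        unfold Pool.Agent.J4H39.Di
        have a6 : (w ^ 20 : ℤ) < i + (od i' (Pool.Agent.J4H39.yy i 0 y) : ℤ) - od i' y := by
          have e1 : ((w ^ 20 : ℕ) : ℤ) = (w ^ 20 : ℤ) := by push_cast; rfl
          omega
        push_cast
        exact lt_of_lt_of_le a6 (le_abs_self _))
    have hck := Pool.Agent.J4H39.ck_le_add ((i : ℤ), (0 : ℤ)) y (Nat.zero_le (4 * w ^ 48))
    have hck' : ck (4 * w ^ 48) ((i : ℤ), (0 : ℤ)) y ≤ 4 * w ^ 48 := by simpa [ck] using hck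
    have hck'' : (ck (4 * w ^ 48) ((i : ℤ), (0 : ℤ)) y : ℝ) ≤ 4 * (w : ℝ) ^ 48 := by exact_mod_cast hck'
    have hck0 : (0 : ℝ) ≤ (ck (4 * w ^ 48) ((i : ℤ), (0 : ℤ)) y : ℝ) := by positivity
    have hjr : (j : ℝ) ≤ 2 * (w : ℝ) ^ 80 := by exact_mod_cast hj2
    have htr : (t : ℝ) = 48 * j := by rw [ht]; push_cast; ring
    have h48 : (0 : ℝ) ≤ (w : ℝ) ^ 48 := by positivity
    have hbound : 1 / (w : ℝ) ^ 5 * ((t : ℝ) - ((4 * w ^ 48 : ℕ) : ℝ)) + ((w ^ 20 : ℕ) : ℝ) + 4 * (w : ℝ) ^ 48 ≤ (w : ℝ) ^ 76 := by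
      have b1 : 1 / (w : ℝ) ^ 5 * ((t : ℝ) - ((4 * w ^ 48 : ℕ) : ℝ)) ≤ 96 * (w : ℝ) ^ 75 := by
        calc 1 / (w : ℝ) ^ 5 * ((t : ℝ) - ((4 * w ^ 48 : ℕ) : ℝ)) ≤ 1 / (w : ℝ) ^ 5 * (96 * (w : ℝ) ^ 80) := by
              apply mul_le_mul_of_nonneg_left _ (by positivity)
              push_cast
              linarith
          _ = 96 * (w : ℝ) ^ 75 := by field_simp
      have b2 : ((w ^ 20 : ℕ) : ℝ) ≤ (w : ℝ) ^ 75 := by
        push_cast
        exact pow_le_pow_right₀ (by linarith) (by norm_num)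
      have b3 : 4 * (w : ℝ) ^ 48 ≤ 4 * (w : ℝ) ^ 75 := by
        have : (w : ℝ) ^ 48 ≤ (w : ℝ) ^ 75 := pow_le_pow_right₀ (by linarith) (by norm_num)
        linarith
      have b4 : 101 * (w : ℝ) ^ 75 ≤ (w : ℝ) ^ 76 := by
        rw [pow_succ (w : ℝ) 75, mul_comm]
        gcongr
      linarith
    rw [abs_le] at hcl
    obtain ⟨hc1, hc2⟩ := hcl
    have f1 : 2 * (ck t ((i : ℤ), (0 : ℤ)) y : ℝ) ≤ t + (w : ℝ) ^ 76 := by
      push_cast at hc1 hc2 hbound ⊢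
      linarith
    have f2 : (t : ℝ) - (w : ℝ) ^ 76 ≤ 2 * (ck t ((i : ℤ), (0 : ℤ)) y : ℝ) := by
      push_cast at hc1 hc2 hbound ⊢
      linarith
    have f1' : 2 * ck t ((i : ℤ), (0 : ℤ)) y ≤ t + w ^ 76 := by exact_mod_cast f1
    have f2' : t ≤ 2 * ck t ((i : ℤ), (0 : ℤ)) y + w ^ 76 := by
      have : (t : ℝ) ≤ 2 * (ck t ((i : ℤ), (0 : ℤ)) y : ℝ) + (w : ℝ) ^ 76 := by linarith
      exact_mod_cast this
    rw [id1_neg (P := 24 * j + w ^ 76 < ck t ((i : ℤ), 0) y ∨ 24 * j + w ^ 76 + ck t ((i : ℤ), 0) y < t)]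
    · positivity
    · rintro (h | h) <;> omega
  unfold Bd
  refine (ex_mono hinc).trans ?_
  rw [ex_add, ex_add]
  have q1 := Pool.Agent.J4H39.pb_Gd hL1 ht1 (δ := ((w ^ 41 : ℕ) : ℝ)) (by positivity)
  have q2 : ex t (fun y => id1 (GdP (3 ^ i * y + 0))) = ex t (fun y => id1 (GdP y)) := by
    rw [← pb_id1, ← pb_id1]
    exact Pool.Agent.J4H39.pb_affine hperG (Pool.Agent.J4H39.pow3_odd i) 0
  have q3 := Pool.Agent.J4H39.pb_BLp i 0 (s0 := 4 * w ^ 48) (t := t) (k := w ^ 20) (l := w) (ε := 1 / (w : ℝ) ^ 5) P.hk (by positivity)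
  rw [q2]
  rw [pb_id1] at q1 q3
  linarith

/-- the error of the clock of the independent pair -/
theorem Bi_le {w j : ℕ} (hw : 101 ≤ w) (hj1 : w ^ 80 ≤ j) :
    Bi (48 * j) (24 * j + w ^ 76) (24 * j + w ^ 76) ≤ 2 * Real.exp (-(((w : ℝ) ^ 76) ^ 2 / (2 * ((48 * j : ℕ) : ℝ)))) := by
  have hw0 : 0 < w := by omega
  have ht1 : 1 ≤ 48 * j := by
    have : 1 ≤ w ^ 80 := Nat.one_le_pow _ _ hw0
    omega
  unfold Bi
  rw [← ex_const (48 * j) (2 * Real.exp (-(((w : ℝ) ^ 76) ^ 2 / (2 * ((48 * j : ℕ) : ℝ)))))]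
  apply ex_mono
  intro y
  refine le_trans ?_ (Pool.Agent.J4H39.pb_cd y ht1 (δ := (w : ℝ) ^ 76) (by positivity))
  rw [pb_id1]
  apply ex_mono
  intro y'
  apply Pool.Agent.J4H39.id1_mono
  intro h
  rw [le_abs]
  rcases h with h | h
  · left
    have : (24 * (j : ℝ) + (w : ℝ) ^ 76) < cd (48 * j) y y' := by exact_mod_cast h
    push_cast
    have h0 : (0 : ℝ) < (w : ℝ) ^ 76 := by positivity
    linarith
  · right
    have : (24 * (j : ℝ) + (w : ℝ) ^ 76) + cd (48 * j) y y' < 48 * j := by exact_mod_cast h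
    push_cast
    have h0 : (0 : ℝ) < (w : ℝ) ^ 76 := by positivity
    linarith

theorem num_small : ∀ᶠ w : ℕ in atTop, ∀ j : ℕ, w ^ 80 ≤ j → j ≤ 2 * w ^ 80 →
    2 * ((((48 * j : ℕ) : ℝ) + 1) * ((48 * j : ℕ) / (4 * ((4 ^ w : ℕ) : ℝ)) +
        2 * Real.exp (-((((w ^ 41 : ℕ) : ℝ)) ^ 2 / (2 * ((48 * j : ℕ) : ℝ)))))) +
      (((48 * j : ℕ) : ℝ) + 1) * (28 * (((48 * j : ℕ) : ℝ) + 1) ^ 2 * (4 ^ w : ℝ) ^ 2 *
        Real.exp (-((1 / (w : ℝ) ^ 5 * ((w ^ 20 : ℕ) : ℝ)) ^ 2 / (2 * ((w ^ 20 : ℕ) : ℝ))))) ≤ 2 / w ∧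
    2 * Real.exp (-(((w : ℝ) ^ 76) ^ 2 / (2 * ((48 * j : ℕ) : ℝ)))) ≤ 1 / w := by
  filter_upwards [log_small, eventually_ge_atTop 30000000] with w hE hw
  intro j hj1 hj2
  have hwr : (30000000 : ℝ) ≤ w := by exact_mod_cast hw
  have hwp : (0 : ℝ) < w := by linarith
  have hw1 : (1 : ℝ) ≤ w := by linarith
  have hjr : (j : ℝ) ≤ 2 * (w : ℝ) ^ 80 := by exact_mod_cast hj2
  have hjr1 : (w : ℝ) ^ 80 ≤ j := by exact_mod_cast hj1
  have h80 : (1 : ℝ) ≤ (w : ℝ) ^ 80 := one_le_pow₀ hw1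
  have hj0 : (0 : ℝ) < j := by linarith
  have ht : ((48 * j : ℕ) : ℝ) = 48 * j := by push_cast; ring
  rw [ht]
  have ht1 : 48 * (j : ℝ) ≤ 96 * (w : ℝ) ^ 80 := by linarith
  have ht2 : 48 * (j : ℝ) + 1 ≤ 97 * (w : ℝ) ^ 80 := by linarith
  have hEi : Real.exp (-(w / 50 : ℝ)) ≤ 1 / (w : ℝ) ^ 200 := by
    rw [Real.exp_neg, ← one_div]
    apply one_div_le_one_div_of_le (by positivity) hE
  -- the three exponentials
  have x1 : Real.exp (-((((w ^ 41 : ℕ) : ℝ)) ^ 2 / (2 * (48 * (j : ℝ))))) ≤ 1 / (w : ℝ) ^ 200 := by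
    refine le_trans (Real.exp_le_exp.2 ?_) hEi
    apply neg_le_neg
    rw [div_le_div_iff₀ (by norm_num) (by positivity)]
    push_cast
    calc (w : ℝ) * (2 * (48 * j)) ≤ w * (2 * (96 * (w : ℝ) ^ 80)) := by gcongr
      _ = 192 * (w : ℝ) ^ 81 := by ring
      _ ≤ (50 * w) * (w : ℝ) ^ 81 := by gcongr; linarith
      _ = ((w : ℝ) ^ 41) ^ 2 * 50 := by ring
  have x2 : Real.exp (-((1 / (w : ℝ) ^ 5 * ((w ^ 20 : ℕ) : ℝ)) ^ 2 / (2 * ((w ^ 20 : ℕ) : ℝ)))) ≤
      Real.exp (-(4 * w)) * (1 / (w : ℝ) ^ 200 * (1 / (w : ℝ) ^ 200)) := by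
    calc Real.exp (-((1 / (w : ℝ) ^ 5 * ((w ^ 20 : ℕ) : ℝ)) ^ 2 / (2 * ((w ^ 20 : ℕ) : ℝ))))
        ≤ Real.exp (-(4 * w) + (-(w / 50 : ℝ) + -(w / 50 : ℝ))) := by
          apply Real.exp_le_exp.2
          have e : (1 / (w : ℝ) ^ 5 * ((w ^ 20 : ℕ) : ℝ)) ^ 2 / (2 * ((w ^ 20 : ℕ) : ℝ)) = (w : ℝ) ^ 10 / 2 := by
            push_cast; field_simp
          rw [e]
          have : (10 : ℝ) * w ≤ (w : ℝ) ^ 10 := by
            calc (10 : ℝ) * w ≤ (w : ℝ) * w := by gcongr; linarith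
              _ = (w : ℝ) ^ 2 := by ring
              _ ≤ (w : ℝ) ^ 10 := pow_le_pow_right₀ hw1 (by norm_num)
          linarith
      _ = Real.exp (-(4 * w)) * (Real.exp (-(w / 50 : ℝ)) * Real.exp (-(w / 50 : ℝ))) := by rw [Real.exp_add, Real.exp_add]
      _ ≤ _ := by gcongr
  have x3 : Real.exp (-(((w : ℝ) ^ 76) ^ 2 / (2 * (48 * (j : ℝ))))) ≤ 1 / (w : ℝ) ^ 200 := by
    refine le_trans (Real.exp_le_exp.2 ?_) hEi
    apply neg_le_neg
    rw [div_le_div_iff₀ (by norm_num) (by positivity)]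
    calc (w : ℝ) * (2 * (48 * j)) ≤ w * (2 * (96 * (w : ℝ) ^ 80)) := by gcongr
      _ = 192 * (w : ℝ) ^ 81 := by ring
      _ ≤ (50 * w) * (w : ℝ) ^ 81 := by gcongr; linarith
      _ = (w : ℝ) ^ 82 * 50 := by ring
      _ ≤ (w : ℝ) ^ 152 * 50 := by gcongr <;> norm_num
      _ = ((w : ℝ) ^ 76) ^ 2 * 50 := by ring
  have x4 : (w : ℝ) ^ 200 ≤ ((4 ^ w : ℕ) : ℝ) := by
    refine hE.trans ?_
    have : Real.exp (w / 50) ≤ Real.exp 1 ^ w := by
      rw [← Real.exp_nat_mul]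
      apply Real.exp_le_exp.2
      linarith
    refine this.trans ?_
    push_cast
    apply pow_le_pow_left₀ (Real.exp_pos 1).le
    have := Real.exp_one_lt_d9
    linarith
  have x5 : (4 ^ w : ℝ) ^ 2 * Real.exp (-(4 * w)) ≤ 1 := by
    have h4 : (4 : ℝ) ≤ Real.exp 2 := by
      have e : Real.exp 2 = Real.exp 1 * Real.exp 1 := by rw [← Real.exp_add]; norm_num
      rw [e]
      have := Real.exp_one_gt_d9
      nlinarith
    have h5 : (4 ^ w : ℝ) ^ 2 ≤ Real.exp (4 * w) := by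
      calc (4 ^ w : ℝ) ^ 2 ≤ (Real.exp 2 ^ w) ^ 2 := by gcongr
        _ = Real.exp (4 * w) := by rw [← Real.exp_nat_mul, ← Real.exp_nat_mul]; congr 1; push_cast; ring
    rw [Real.exp_neg, ← div_eq_mul_inv]
    exact div_le_one_of_le₀ h5 (Real.exp_pos _).le
  constructor
  · have s1 : 48 * (j : ℝ) / (4 * ((4 ^ w : ℕ) : ℝ)) ≤ 24 / (w : ℝ) ^ 120 := by
      calc 48 * (j : ℝ) / (4 * ((4 ^ w : ℕ) : ℝ)) ≤ 96 * (w : ℝ) ^ 80 / (4 * (w : ℝ) ^ 200) := by gcongr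
        _ = 24 / (w : ℝ) ^ 120 := by field_simp; norm_num
    have s2 : 2 * Real.exp (-((((w ^ 41 : ℕ) : ℝ)) ^ 2 / (2 * (48 * (j : ℝ))))) ≤ 2 / (w : ℝ) ^ 120 := by
      have : 1 / (w : ℝ) ^ 200 ≤ 1 / (w : ℝ) ^ 120 := by
        apply one_div_le_one_div_of_le (by positivity)
        exact pow_le_pow_right₀ hw1 (by norm_num)
      have e : 2 / (w : ℝ) ^ 120 = 2 * (1 / (w : ℝ) ^ 120) := by ring
      rw [e]; linarith
    have s3 : 2 * ((48 * (j : ℝ) + 1) * (48 * (j : ℝ) / (4 * ((4 ^ w : ℕ) : ℝ)) +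
        2 * Real.exp (-((((w ^ 41 : ℕ) : ℝ)) ^ 2 / (2 * (48 * (j : ℝ))))))) ≤ 1 / w := by
      calc _ ≤ 2 * ((97 * (w : ℝ) ^ 80) * (24 / (w : ℝ) ^ 120 + 2 / (w : ℝ) ^ 120)) := by gcongr
        _ = 5044 / (w : ℝ) ^ 40 := by field_simp; norm_num
        _ ≤ 1 / w := by
          rw [div_le_div_iff₀ (by positivity) hwp]
          calc 5044 * (w : ℝ) ≤ w * w := by gcongr; linarith
            _ = (w : ℝ) ^ 2 := by ring
            _ ≤ (w : ℝ) ^ 40 := pow_le_pow_right₀ hw1 (by norm_num)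
            _ = 1 * (w : ℝ) ^ 40 := by ring
    have s4 : (48 * (j : ℝ) + 1) * (28 * (48 * (j : ℝ) + 1) ^ 2 * (4 ^ w : ℝ) ^ 2 *
        Real.exp (-((1 / (w : ℝ) ^ 5 * ((w ^ 20 : ℕ) : ℝ)) ^ 2 / (2 * ((w ^ 20 : ℕ) : ℝ))))) ≤ 1 / w := by
      calc _ ≤ (97 * (w : ℝ) ^ 80) * (28 * (97 * (w : ℝ) ^ 80) ^ 2 * (4 ^ w : ℝ) ^ 2 *
            (Real.exp (-(4 * w)) * (1 / (w : ℝ) ^ 200 * (1 / (w : ℝ) ^ 200)))) := by gcongr
        _ = (25554844 / (w : ℝ) ^ 160) * ((4 ^ w : ℝ) ^ 2 * Real.exp (-(4 * w))) := by field_simp; norm_num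
        _ ≤ (25554844 / (w : ℝ) ^ 160) * 1 := by gcongr
        _ = 25554844 / (w : ℝ) ^ 160 := by ring
        _ ≤ 1 / w := by
          rw [div_le_div_iff₀ (by positivity) hwp]
          calc 25554844 * (w : ℝ) ≤ w * w := by gcongr; linarith
            _ = (w : ℝ) ^ 2 := by ring
            _ ≤ (w : ℝ) ^ 160 := pow_le_pow_right₀ hw1 (by norm_num)
            _ = 1 * (w : ℝ) ^ 160 := by ring
    have e : 2 / (w : ℝ) = 1 / w + 1 / w := by ring
    rw [e]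
    exact add_le_add s3 s4
  · calc 2 * Real.exp (-(((w : ℝ) ^ 76) ^ 2 / (2 * (48 * (j : ℝ))))) ≤ 2 * (1 / (w : ℝ) ^ 200) := by gcongr
      _ = 2 / (w : ℝ) ^ 200 := by ring
      _ ≤ 1 / w := by
        rw [div_le_div_iff₀ (by positivity) hwp]
        calc 2 * (w : ℝ) ≤ w * w := by gcongr; linarith
          _ = (w : ℝ) ^ 2 := by ring
          _ ≤ (w : ℝ) ^ 200 := pow_le_pow_right₀ hw1 (by norm_num)
          _ = 1 * (w : ℝ) ^ 200 := by ring

theorem disp_main {w : ℕ} (hw : 1 ≤ w) {φ : ℤ → ℤ → ℝ}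
    (hφ : ∀ a d a' d', |φ a d - φ a' d'| ≤ ((|a - a'| + |d - d'| : ℤ) : ℝ) / (w : ℝ) ^ 39 + 1 / w) :
    ∀ q q', q + q' = 2 * w ^ 76 → ∀ a d, |φ a d - Wo q q' (fun x y => φ (x - (w ^ 76 : ℕ)) y) a d| ≤ 4 / w := by
  intro q q' hq a₀ d₀
  have hw1 : (1 : ℝ) ≤ w := by exact_mod_cast hw
  have hwp : (0 : ℝ) < w := by linarith
  have key := Wo_disp (φ := fun x y => φ (x - (w ^ 76 : ℕ)) y) (v := φ a₀ d₀) (α := 2 / (w : ℝ)) (β := 1 / (2 * (w : ℝ) ^ 77))
    (L := w ^ 76) (a₀ := a₀) (d₀ := d₀) (by positivity) (by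
      intro a d
      refine (hφ _ _ _ _).trans ?_
      unfold ff
      push_cast
      have h1 : ∀ x : ℝ, |x| ≤ x ^ 2 / (2 * (w : ℝ) ^ 38) + (w : ℝ) ^ 38 / 2 := by
        intro x
        have hK : (0 : ℝ) < (w : ℝ) ^ 38 := by positivity
        have h2 : 0 ≤ (|x| - (w : ℝ) ^ 38) ^ 2 := sq_nonneg _
        have h3 : |x| ^ 2 = x ^ 2 := sq_abs x
        rw [div_add_div _ _ (by positivity) (by positivity), le_div_iff₀ (by positivity)]
        nlinarith
      have h4 := h1 ((a : ℝ) - (w : ℝ) ^ 76 - a₀)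
      have h5 := h1 ((d : ℝ) - d₀)
      have h6 : (|(a : ℝ) - (w : ℝ) ^ 76 - a₀| + |(d : ℝ) - d₀|) / (w : ℝ) ^ 39 ≤
          ((((a : ℝ) - (w : ℝ) ^ 76 - a₀) ^ 2 / (2 * (w : ℝ) ^ 38) + (w : ℝ) ^ 38 / 2) +
          (((d : ℝ) - d₀) ^ 2 / (2 * (w : ℝ) ^ 38) + (w : ℝ) ^ 38 / 2)) / (w : ℝ) ^ 39 := by gcongr
      refine (add_le_add h6 le_rfl).trans (le_of_eq ?_)
      field_simp
      ring) q q' a₀ d₀
  rw [abs_sub_comm]
  refine key.trans ?_
  have e : ff (w ^ 76) a₀ d₀ (q + q') a₀ d₀ = 5 / 2 * (w : ℝ) ^ 76 := by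
    rw [hq]
    unfold ff
    push_cast
    ring
  rw [e]
  have e2 : 1 / (2 * (w : ℝ) ^ 77) * (5 / 2 * (w : ℝ) ^ 76) = 5 / 4 / w := by field_simp; ring
  rw [e2]
  have e3 : 4 / (w : ℝ) = 2 / w + 5 / 4 / w + 3 / 4 / w := by ring
  rw [e3]
  have : 0 ≤ 3 / 4 / (w : ℝ) := by positivity
  linarith

theorem t_LAW : S_LAW := by
  refine ⟨16, by norm_num, ?_⟩
  filter_upwards [num_small, eventually_ge_atTop 101] with w hnum hw
  intro j hj1 hj2 D hD1 hD2 φ hφ1 hφ2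
  obtain ⟨n1, n2⟩ := hnum j hj1 hj2
  obtain ⟨i, rfl⟩ : ∃ i : ℕ, D = i := ⟨D.toNat, by
    have : (0 : ℤ) ≤ (w : ℤ) ^ 42 := by positivity
    omega⟩
  have hi1 : w ^ 42 ≤ i := by exact_mod_cast hD1
  have hi2 : i ≤ w ^ 48 := by exact_mod_cast hD2
  have b1 := (Bd_le hw hj1 hj2 hi1 hi2).trans n1
  have b2 := (Bi_le hw hj1).trans n2
  have h0 := disp_main (w := w) (by omega) hφ2
  have hwp : (0 : ℝ) < w := by exact_mod_cast (by omega : 0 < w)
  have m1 := dep_main hφ1 (fun a d => hφ1 _ _) (err := 4 / w) (by positivity) h0 (48 * j) 0 ((i : ℤ), 0) (24 * j + w ^ 76)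
    (24 * j + w ^ 76) (by ring)
  have m2 := ind_main hφ1 (fun a d => hφ1 _ _) (err := 4 / w) (by positivity) h0 (48 * j) 0 (i : ℤ) (24 * j + w ^ 76)
    (24 * j + w ^ 76) (by ring)
  unfold Jd at m1
  unfold Ji at m2
  simp only [zero_add] at m1 m2
  have e : (16 : ℝ) / w = 4 / w + 4 / w + 2 * (2 / w) + 2 * (1 / w) + 2 / w := by ring
  have e0 : 0 ≤ 2 / (w : ℝ) := by positivity
  rw [abs_le] at m1 m2 ⊢
  rw [e]
  constructor <;> linarith [m1.1, m1.2, m2.1, m2.2]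

end Pool.Agent.J4H95.PC
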