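import Mathlib
import Pool.Agent.J4H95.PC.Base

set_option autoImplicit false

/-! Project PC (A5): the correlations along forms vary slowly. -/

namespace Pool.Agent.J4H95.PC

open Finset Filter Real
open Pool.Agent.J4H39 (T od ex pb ns rn stP GK Cm DV th0 cnt Per id1 id1_pos id1_neg id1_nonneg id1_le_one)
open Pool.Agent.J4H26.PC
open Pool.Agent.H499R2.CO (rho rho_nonneg)

/-- comparison of the two sums -/
theorem lip_sum {f g : ℤ → ℝ} (hf : Iv f) (hg : Iv g) {κ X : ℝ} (hX : 1 ≤ X) {k : ℕ} (hk : (2 : ℝ) ^ k ≤ X)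
    (a D d : ℕ) {η₁ η₂ : ℝ} (h1 : ∀ s : ℕ, s < 3 ^ a → ns k ((a : ℤ), (s : ℤ)) ≤ η₁)
    (h2 : ∀ s : ℕ, s < 3 ^ a → ns k (((d + a : ℕ) : ℤ), 3 ^ (D + d) * (s : ℤ)) ≤ η₂) :
    |∑ n ∈ Finset.Ico ⌈κ * (3 ^ a * X)⌉ ⌈κ * (3 ^ a * X) + 3 ^ a * X⌉, f n * g (3 ^ (D + d) * n) -
      3 ^ a * ∑ n ∈ Finset.Ico ⌈κ * X⌉ ⌈κ * X + X⌉, f n * g (3 ^ D * n)| ≤ 2 * 3 ^ a + 3 ^ a * (6 * X * (η₁ + η₂)) := by
  have hq : (0 : ℝ) < 3 ^ a := by positivity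
  have hb : ∀ n, |f n * g (3 ^ (D + d) * n)| ≤ 1 := by
    intro n
    rw [abs_mul]
    exact mul_le_one₀ (hf.bd _) (abs_nonneg _) (hg.bd _)
  -- rounding
  have r1 : ∀ z : ℝ, |((⌈3 ^ a * z⌉ : ℤ) : ℝ) - ((((3 ^ a : ℕ) : ℤ) * ⌈z⌉ : ℤ) : ℝ)| ≤ 3 ^ a := by
    intro z
    have a1 := Int.le_ceil z
    have a2 := Int.ceil_lt_add_one z
    have a3 : ⌈3 ^ a * z⌉ ≤ ((3 ^ a : ℕ) : ℤ) * ⌈z⌉ := by
      rw [Int.ceil_le]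
      push_cast
      exact mul_le_mul_of_nonneg_left a1 hq.le
    have a4 : ((⌈3 ^ a * z⌉ : ℤ) : ℝ) ≤ ((((3 ^ a : ℕ) : ℤ) * ⌈z⌉ : ℤ) : ℝ) := by exact_mod_cast a3
    have a5 := Int.le_ceil (3 ^ a * z)
    rw [abs_sub_comm, abs_of_nonneg (by linarith)]
    push_cast
    nlinarith
  have e1 : κ * (3 ^ a * X) = 3 ^ a * (κ * X) := by ring
  have e2 : 3 ^ a * (κ * X) + 3 ^ a * X = 3 ^ a * (κ * X + X) := by ring
  rw [e1, e2]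
  have h3 : ⌈κ * X⌉ ≤ ⌈κ * X + X⌉ := Int.ceil_mono (by linarith)
  have s1 := sum_Ico_diff (F := fun n => f n * g (3 ^ (D + d) * n)) zero_le_one hb ⌈3 ^ a * (κ * X)⌉ ⌈3 ^ a * (κ * X + X)⌉
    (((3 ^ a : ℕ) : ℤ) * ⌈κ * X⌉) (((3 ^ a : ℕ) : ℤ) * ⌈κ * X + X⌉)
  have s2 := r1 (κ * X)
  have s3 := r1 (κ * X + X)
  rw [sum_blocks _ (3 ^ a) _ _ h3] at s1
  have s4 : |∑ m ∈ Finset.Ico ⌈κ * X⌉ ⌈κ * X + X⌉, ∑ s ∈ range (3 ^ a), f (((3 ^ a : ℕ) : ℤ) * m + (s : ℕ)) *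
      g (3 ^ (D + d) * (((3 ^ a : ℕ) : ℤ) * m + (s : ℕ))) -
      3 ^ a * ∑ n ∈ Finset.Ico ⌈κ * X⌉ ⌈κ * X + X⌉, f n * g (3 ^ D * n)| ≤ 3 ^ a * (6 * X * (η₁ + η₂)) := by
    rw [mul_sum, ← sum_sub_distrib]
    have t1 : ∀ m : ℤ, |∑ s ∈ range (3 ^ a), f (((3 ^ a : ℕ) : ℤ) * m + (s : ℕ)) *
      g (3 ^ (D + d) * (((3 ^ a : ℕ) : ℤ) * m + (s : ℕ))) - 3 ^ a * (f m * g (3 ^ D * m))| ≤
      ∑ s ∈ range (3 ^ a), (2 * id1 (rn stP k ((a : ℤ), ((s : ℕ) : ℤ)) m ≠ (0, 0)) +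
        2 * id1 (rn stP k (((d + a : ℕ) : ℤ), 3 ^ (D + d) * ((s : ℕ) : ℤ)) (3 ^ D * m) ≠ (0, 0))) := by
      intro m
      have e3 : (3 : ℝ) ^ a * (f m * g (3 ^ D * m)) = ∑ s ∈ range (3 ^ a), (f m * g (3 ^ D * m)) := by
        rw [sum_const, card_range, nsmul_eq_mul]; push_cast; ring
      rw [e3, ← sum_sub_distrib]
      refine (abs_sum_le_sum_abs _ _).trans (sum_le_sum fun s _ => ?_)
      have q1 := Pool.Agent.J4H39.rel_nat a (s : ℤ) m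
      have q2 := Pool.Agent.J4H39.rel_nat (d + a) (3 ^ (D + d) * (s : ℤ)) (3 ^ D * m)
      have q3 := pair_diff hf hg q1 q2 k
      have e4 : (3 : ℤ) ^ (D + d) * (((3 ^ a : ℕ) : ℤ) * m + (s : ℕ)) = 3 ^ (d + a) * (3 ^ D * m) + 3 ^ (D + d) * (s : ℤ) := by
        push_cast; ring
      rw [e4]
      push_cast at q3 ⊢
      exact q3
    refine (abs_sum_le_sum_abs _ _).trans ((sum_le_sum fun m _ => t1 m).trans ?_)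
    rw [sum_comm]
    have t2 : ∀ s ∈ range (3 ^ a), ∑ m ∈ Finset.Ico ⌈κ * X⌉ ⌈κ * X + X⌉,
        (2 * id1 (rn stP k ((a : ℤ), ((s : ℕ) : ℤ)) m ≠ (0, 0)) +
        2 * id1 (rn stP k (((d + a : ℕ) : ℤ), 3 ^ (D + d) * ((s : ℕ) : ℤ)) (3 ^ D * m) ≠ (0, 0))) ≤ 6 * X * (η₁ + η₂) := by
      intro s hs
      rw [mem_range] at hs
      rw [sum_add_distrib, ← mul_sum, ← mul_sum]
      have b1 := bad_sum (Pool.Agent.J4H39.per_ns k ((a : ℤ), ((s : ℕ) : ℤ))) (κ := κ) hX hk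
      have b2 := bad_sum (per_mul (Pool.Agent.J4H39.per_ns k (((d + a : ℕ) : ℤ), 3 ^ (D + d) * ((s : ℕ) : ℤ))) D) (κ := κ) hX hk
      rw [pb_mul (Pool.Agent.J4H39.per_ns k (((d + a : ℕ) : ℤ), 3 ^ (D + d) * ((s : ℕ) : ℤ))) D] at b2
      have c1 : 3 * X * pb k (fun y => rn stP k ((a : ℤ), ((s : ℕ) : ℤ)) y ≠ (0, 0)) ≤ 3 * X * η₁ :=
        mul_le_mul_of_nonneg_left (h1 s hs) (by positivity)
      have c2 : 3 * X * pb k (fun y => rn stP k (((d + a : ℕ) : ℤ), 3 ^ (D + d) * ((s : ℕ) : ℤ)) y ≠ (0, 0)) ≤ 3 * X * η₂ :=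
        mul_le_mul_of_nonneg_left (h2 s hs) (by positivity)
      linarith
    refine (sum_le_sum t2).trans ?_
    rw [sum_const, card_range, nsmul_eq_mul]
    push_cast
    exact le_rfl
  have s5 := abs_sub_le (∑ n ∈ Finset.Ico ⌈3 ^ a * (κ * X)⌉ ⌈3 ^ a * (κ * X + X)⌉, f n * g (3 ^ (D + d) * n))
    (∑ m ∈ Finset.Ico ⌈κ * X⌉ ⌈κ * X + X⌉, ∑ s ∈ range (3 ^ a), f (((3 ^ a : ℕ) : ℤ) * m + (s : ℕ)) *
      g (3 ^ (D + d) * (((3 ^ a : ℕ) : ℤ) * m + (s : ℕ)))) (3 ^ a * ∑ n ∈ Finset.Ico ⌈κ * X⌉ ⌈κ * X + X⌉, f n * g (3 ^ D * n))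
  linarith

theorem t_LIP : S_LIP := by
  obtain ⟨C, hC, hrate⟩ := Pool.Agent.J4H39.ns_rate
  refine ⟨108 * C + 162 * C + 2, by positivity, ?_⟩
  filter_upwards [eventually_ge_atTop 2] with w hw
  intro f g hf hg κ X hκ hX a D d ha hD hd
  have hw1 : (1 : ℝ) ≤ w := by exact_mod_cast (by omega : 1 ≤ w)
  have hw2 : (2 : ℝ) ≤ w := by exact_mod_cast hw
  have hw0 : (0 : ℝ) < w := by linarith
  have hr := rho_le (w := w) (by omega)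
  have hr0 := rho_nonneg (w ^ 80)
  have hk1 : 1 ≤ w ^ 80 := Nat.one_le_pow _ _ (by omega)
  have hX1 : 1 ≤ X := le_trans (one_le_pow₀ (by norm_num)) hX
  have haR : (a : ℝ) ≤ (w : ℝ) ^ 48 := by exact_mod_cast ha
  have hDR : (D : ℝ) ≤ 2 * (w : ℝ) ^ 48 := by exact_mod_cast hD
  have hdR : (d : ℝ) ≤ (w : ℝ) ^ 48 := by exact_mod_cast hd
  have ha0 : (0 : ℝ) ≤ a := by positivity
  have hd0 : (0 : ℝ) ≤ d := by positivity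
  have h34 : ∀ n : ℕ, (3 : ℝ) ^ n ≤ 4 ^ n := fun n => pow_le_pow_left₀ (by norm_num) (by norm_num) n
  -- the first companion
  have n1 : ∀ s : ℕ, s < 3 ^ a → ns (w ^ 80) ((a : ℤ), (s : ℤ)) ≤ C * (1 + a) * (9 / (w : ℝ) ^ 39) := by
    intro s hs
    have hs' : |((s : ℤ) : ℝ)| ≤ 4 ^ a := by
      have : (s : ℝ) < 3 ^ a := by exact_mod_cast hs
      rw [Int.cast_natCast, abs_of_nonneg (by positivity)]
      exact this.le.trans (h34 a)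
    refine (hrate (w ^ 80) hk1 a a s hs').trans ?_
    have : √ (1 + (((a : ℕ) : ℤ) : ℝ) ^ 2 + (a : ℕ)) ≤ 1 + a := by
      rw [Real.sqrt_le_left (by positivity)]
      push_cast
      nlinarith
    gcongr
  have n2 : ∀ s : ℕ, s < 3 ^ a → ns (w ^ 80) (((d + a : ℕ) : ℤ), 3 ^ (D + d) * (s : ℤ)) ≤
      C * ((d + a) + 3 * (w : ℝ) ^ 24) * (9 / (w : ℝ) ^ 39) := by
    intro s hs
    have hs' : |((3 ^ (D + d) * (s : ℤ) : ℤ) : ℝ)| ≤ 4 ^ (D + d + a) := by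
      have : (s : ℝ) < 3 ^ a := by exact_mod_cast hs
      push_cast
      rw [abs_of_nonneg (by positivity)]
      calc (3 : ℝ) ^ (D + d) * s ≤ 3 ^ (D + d) * 3 ^ a := by gcongr
        _ = 3 ^ (D + d + a) := by rw [pow_add _ (D + d) a]
        _ ≤ _ := h34 _
    refine (hrate (w ^ 80) hk1 ((d + a : ℕ) : ℤ) (D + d + a) _ hs').trans ?_
    have : √ (1 + (((d + a : ℕ) : ℤ) : ℝ) ^ 2 + ((D + d + a : ℕ) : ℝ)) ≤ (d + a) + 3 * (w : ℝ) ^ 24 := by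
      rw [Real.sqrt_le_left (by positivity)]
      push_cast
      have e : ((w : ℝ) ^ 24) ^ 2 = (w : ℝ) ^ 48 := by ring
      have h1 : (1 : ℝ) ≤ (w : ℝ) ^ 48 := one_le_pow₀ hw1
      have h2 : 0 ≤ ((d : ℝ) + a) * (w : ℝ) ^ 24 := by positivity
      nlinarith
    gcongr
  have key := lip_sum hf hg (κ := κ) hX1 hX a D d n1 n2
  have hq : (0 : ℝ) < 3 ^ a := by positivity
  have hq1 : (1 : ℝ) ≤ 3 ^ a := one_le_pow₀ (by norm_num)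
  have hX0 : 0 < X := by linarith
  unfold cc
  simp only [add_zero]
  rw [max_eq_left (by nlinarith : (1 : ℝ) ≤ 3 ^ a * X), max_eq_left hX1]
  set S₁ := ∑ n ∈ Finset.Ico ⌈κ * (3 ^ a * X)⌉ ⌈κ * (3 ^ a * X) + 3 ^ a * X⌉, f n * g (3 ^ (D + d) * n) with hS₁
  set S₂ := ∑ n ∈ Finset.Ico ⌈κ * X⌉ ⌈κ * X + X⌉, f n * g (3 ^ D * n) with hS₂
  have e1 : S₁ / (3 ^ a * X) - S₂ / X = (S₁ - 3 ^ a * S₂) / (3 ^ a * X) := by field_simp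
  rw [e1, abs_div, abs_of_pos (by positivity : (0 : ℝ) < 3 ^ a * X), div_le_iff₀ (by positivity)]
  refine key.trans ?_
  -- final estimate
  have hXw : (w : ℝ) ^ 2 ≤ X := by
    refine le_trans ?_ hX
    have h1 : (w : ℝ) ≤ 2 ^ w := by exact_mod_cast Nat.lt_two_pow_self.le
    calc (w : ℝ) ^ 2 ≤ ((2 : ℝ) ^ w) ^ 2 := by gcongr
      _ = 2 ^ (w * 2) := by rw [← pow_mul]
      _ ≤ 2 ^ (w ^ 80) := by
        apply pow_le_pow_right₀ (by norm_num)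
        calc w * 2 ≤ w * w := by nlinarith
          _ = w ^ 2 := by ring
          _ ≤ w ^ 80 := Nat.pow_le_pow_right (by omega) (by norm_num)
  have f1 : (1 : ℝ) ≤ X / (w : ℝ) ^ 2 := by rw [le_div_iff₀ (by positivity)]; linarith
  have f2 : 9 / (w : ℝ) ^ 39 ≤ 9 / (w : ℝ) ^ 2 := by
    apply div_le_div_of_nonneg_left (by norm_num) (by positivity)
    exact pow_le_pow_right₀ hw1 (by norm_num)
  have f3 : (w : ℝ) ^ 24 * (9 / (w : ℝ) ^ 39) ≤ 9 / (w : ℝ) ^ 2 := by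
    rw [← mul_div_assoc, div_le_div_iff₀ (by positivity) (by positivity)]
    calc (w : ℝ) ^ 24 * 9 * (w : ℝ) ^ 2 = 9 * (w : ℝ) ^ 26 := by ring
      _ ≤ 9 * (w : ℝ) ^ 39 := by gcongr <;> norm_num
  have f4 : 2 * (3 : ℝ) ^ a ≤ 3 ^ a * X * (2 / (w : ℝ) ^ 2) := by
    calc 2 * (3 : ℝ) ^ a = 3 ^ a * 2 * 1 := by ring
      _ ≤ 3 ^ a * 2 * (X / (w : ℝ) ^ 2) := by gcongr
      _ = _ := by ring
  have f5 : C * (1 + a) * (9 / (w : ℝ) ^ 39) + C * ((d + a) + 3 * (w : ℝ) ^ 24) * (9 / (w : ℝ) ^ 39) ≤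
      ((a : ℝ) + d) * (18 * C / (w : ℝ) ^ 39) + 36 * C / (w : ℝ) ^ 2 := by
    have g1 : C * (9 / (w : ℝ) ^ 39) ≤ C * (9 / (w : ℝ) ^ 2) := by gcongr
    have g2 : 3 * C * ((w : ℝ) ^ 24 * (9 / (w : ℝ) ^ 39)) ≤ 3 * C * (9 / (w : ℝ) ^ 2) := by gcongr
    have g3 : 0 ≤ (d : ℝ) * (C * (9 / (w : ℝ) ^ 39)) := by positivity
    have e5 : C * (1 + a) * (9 / (w : ℝ) ^ 39) + C * ((d + a) + 3 * (w : ℝ) ^ 24) * (9 / (w : ℝ) ^ 39) =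
      ((a : ℝ) + d) * (2 * (C * (9 / (w : ℝ) ^ 39))) - d * (C * (9 / (w : ℝ) ^ 39)) + C * (9 / (w : ℝ) ^ 39) +
        3 * C * ((w : ℝ) ^ 24 * (9 / (w : ℝ) ^ 39)) := by ring
    rw [e5]
    have e6 : ((a : ℝ) + d) * (18 * C / (w : ℝ) ^ 39) = ((a : ℝ) + d) * (2 * (C * (9 / (w : ℝ) ^ 39))) := by ring
    have e7 : 36 * C / (w : ℝ) ^ 2 = C * (9 / (w : ℝ) ^ 2) + 3 * C * (9 / (w : ℝ) ^ 2) := by ring
    rw [e6, e7]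
    linarith
  have f6 : 3 ^ a * (6 * X * (C * (1 + a) * (9 / (w : ℝ) ^ 39) + C * ((d + a) + 3 * (w : ℝ) ^ 24) * (9 / (w : ℝ) ^ 39))) ≤
      3 ^ a * (6 * X * (((a : ℝ) + d) * (18 * C / (w : ℝ) ^ 39) + 36 * C / (w : ℝ) ^ 2)) := by gcongr
  have f7 : ((a : ℝ) + d) * (108 * C / (w : ℝ) ^ 39) ≤ ((a : ℝ) + d) * ((108 * C + 162 * C + 2) / (w : ℝ) ^ 39) := by
    gcongr
    linarith
  have f8 : 216 * C / (w : ℝ) ^ 2 + 2 / (w : ℝ) ^ 2 ≤ (108 * C + 162 * C + 2) / (w : ℝ) ^ 2 := by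
    rw [← add_div]
    gcongr
    linarith
  calc 2 * 3 ^ a + 3 ^ a * (6 * X * (C * (1 + a) * (9 / (w : ℝ) ^ 39) + C * ((d + a) + 3 * (w : ℝ) ^ 24) * (9 / (w : ℝ) ^ 39)))
      ≤ 3 ^ a * X * (2 / (w : ℝ) ^ 2) + 3 ^ a * (6 * X * (((a : ℝ) + d) * (18 * C / (w : ℝ) ^ 39) + 36 * C / (w : ℝ) ^ 2)) := add_le_add f4 f6
    _ = (((a : ℝ) + d) * (108 * C / (w : ℝ) ^ 39) + (216 * C / (w : ℝ) ^ 2 + 2 / (w : ℝ) ^ 2)) * (3 ^ a * X) := by ring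
    _ ≤ _ := by
      apply mul_le_mul_of_nonneg_right _ (by positivity)
      exact add_le_add f7 f8

end Pool.Agent.J4H95.PC
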