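import Mathlib
import Pool.Agent.J4H95.PC.Base

set_option autoImplicit false

/-! Project PC (A4): window averages and forms. -/

namespace Pool.Agent.J4H95.PC

open Finset Filter Real MeasureTheory
open Pool.Agent.J4H39 (T od ex pb ns rn stP GK Cm DV th0 cnt Per id1 id1_pos id1_neg id1_nonneg id1_le_one)
open Pool.Agent.J4H26.PC
open Pool.Agent.H499R2.CO (rho rho_nonneg)

theorem ii_bdd {F : ℝ → ℝ} (hm : Measurable F) {A B M : ℝ} (hAB : A ≤ B) (hb : ∀ x, A ≤ x → x ≤ B → |F x| ≤ M) :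
    IntervalIntegrable F volume A B := by
  rw [intervalIntegrable_iff_integrableOn_Ioc_of_le hAB]
  apply Measure.integrableOn_of_bounded (M := M) (by simp) hm.aestronglyMeasurable
  rw [ae_restrict_iff' measurableSet_Ioc]
  exact Eventually.of_forall fun x hx => hb x hx.1.le hx.2

theorem meas_ceil (F : ℤ → ℝ) : Measurable (fun y : ℝ => F ⌈y⌉) :=
  (measurable_of_countable F).comp Int.measurable_ceil

theorem meas_win (G : ℤ → ℝ) (b : ℝ) : Measurable (fun x : ℝ => ∑ n ∈ Finset.Ico ⌈x⌉ ⌈x + b⌉, G n) := by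
  have h : Measurable (fun p : ℤ × ℤ => ∑ n ∈ Finset.Ico p.1 p.2, G n) := measurable_of_countable _
  have h2 : Measurable (fun x : ℝ => ⌈x + b⌉) := Int.measurable_ceil.comp (measurable_id.add_const b)
  have h3 : Measurable (fun x : ℝ => ⌈x⌉) := Int.measurable_ceil
  have h4 : Measurable (fun x : ℝ => ((⌈x⌉, ⌈x + b⌉) : ℤ × ℤ)) := Measurable.prodMk h3 h2
  have e : (fun x : ℝ => ∑ n ∈ Finset.Ico ⌈x⌉ ⌈x + b⌉, G n) =
      (fun p : ℤ × ℤ => ∑ n ∈ Finset.Ico p.1 p.2, G n) ∘ (fun x : ℝ => ((⌈x⌉, ⌈x + b⌉) : ℤ × ℤ)) := rfl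
  rw [e]
  exact Measurable.comp h h4

theorem sum_Ico_cons (G : ℤ → ℝ) {a b c : ℤ} (h1 : a ≤ b) (h2 : b ≤ c) :
    ∑ n ∈ Finset.Ico a b, G n + ∑ n ∈ Finset.Ico b c, G n = ∑ n ∈ Finset.Ico a c, G n := by
  rw [← Finset.sum_union]
  · congr 1
    ext n; simp only [Finset.mem_union, Finset.mem_Ico]; omega
  · rw [Finset.disjoint_left]
    intro n hn hn'
    rw [Finset.mem_Ico] at hn hn'; omega

theorem win_bd {G : ℤ → ℝ} {B : ℝ} (hB : 0 ≤ B) (hG : ∀ n, |G n| ≤ B) {x b : ℝ} (hb : 0 ≤ b) :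
    |∑ n ∈ Finset.Ico ⌈x⌉ ⌈x + b⌉, G n| ≤ B * (b + 1) := by
  have h := sum_Ico_diff hB hG ⌈x⌉ ⌈x + b⌉ ⌈x⌉ ⌈x⌉
  simp only [Finset.Ico_self, Finset.sum_empty, sub_zero, sub_self, abs_zero, zero_add] at h
  refine h.trans (mul_le_mul_of_nonneg_left ?_ hB)
  have h1 := Int.ceil_lt_add_one (x + b)
  have h2 := Int.le_ceil x
  have h3 : (⌈x⌉ : ℝ) ≤ ⌈x + b⌉ := by exact_mod_cast Int.ceil_mono (by linarith : x ≤ x + b)
  rw [abs_of_nonneg (by linarith)]
  linarith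

/-- the average over the positions of the window sums -/
theorem avg_shift {G : ℤ → ℝ} {B : ℝ} (hB : 0 ≤ B) (hG : ∀ n, |G n| ≤ B) {A X b : ℝ} (hX : 0 ≤ X) (hb : 0 ≤ b) :
    |(∫ x in A..(A + X), ∑ n ∈ Finset.Ico ⌈x⌉ ⌈x + b⌉, G n) - b * ∑ n ∈ Finset.Ico ⌈A⌉ ⌈A + X⌉, G n| ≤
      2 * (B * (b + 1) * b) := by
  obtain ⟨S, hS⟩ : ∃ S : ℝ → ℝ, S = fun y => ∑ n ∈ Finset.Ico ⌈A⌉ ⌈y⌉, G n := ⟨_, rfl⟩
  have hSm : Measurable S := by rw [hS]; exact meas_ceil (fun z => ∑ n ∈ Finset.Ico ⌈A⌉ z, G n)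
  have hdiff : ∀ x y, A ≤ x → x ≤ y → S y - S x = ∑ n ∈ Finset.Ico ⌈x⌉ ⌈y⌉, G n := by
    intro x y h1 h2
    rw [hS]
    simp only
    have e := sum_Ico_cons G (Int.ceil_mono h1) (Int.ceil_mono h2)
    linarith
  have hSb : ∀ x y, A ≤ x → x ≤ y → |S y - S x| ≤ B * (y - x + 1) := by
    intro x y h1 h2
    rw [hdiff x y h1 h2]
    have := win_bd hB hG (x := x) (b := y - x) (by linarith)
    rwa [add_sub_cancel] at this
  have hSA : S A = 0 := by rw [hS]; simp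
  have hSb0 : ∀ y, A ≤ y → |S y| ≤ B * (y - A + 1) := by
    intro y h
    have := hSb A y le_rfl h
    rwa [hSA, sub_zero] at this
  have ii : ∀ u v, A ≤ u → u ≤ v → IntervalIntegrable S volume u v := by
    intro u v h1 h2
    apply ii_bdd hSm h2 (M := B * (v - A + 1))
    intro x hx1 hx2
    refine (hSb0 x (by linarith)).trans (mul_le_mul_of_nonneg_left (by linarith) hB)
  have e1 : (∫ x in A..(A + X), ∑ n ∈ Finset.Ico ⌈x⌉ ⌈x + b⌉, G n) = ∫ x in A..(A + X), (S (x + b) - S x) := by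
    apply intervalIntegral.integral_congr
    intro x hx
    rw [Set.uIcc_of_le (by linarith)] at hx
    simp only
    rw [hdiff x (x + b) hx.1 (by linarith)]
  have ii2 : IntervalIntegrable (fun x => S (x + b)) volume A (A + X) := by
    have := (ii (A + b) (A + X + b) (by linarith) (by linarith)).comp_add_right b
    simpa using this
  have e2 : (∫ x in A..(A + X), (S (x + b) - S x)) = (∫ x in (A + b)..(A + X + b), S x) - ∫ x in A..(A + X), S x := by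
    rw [intervalIntegral.integral_sub ii2 (ii _ _ le_rfl (by linarith)), intervalIntegral.integral_comp_add_right]
  have e3 : (∫ x in A..(A + b), S x) + (∫ x in (A + b)..(A + X + b), S x) = ∫ x in A..(A + X + b), S x :=
    intervalIntegral.integral_add_adjacent_intervals (ii _ _ le_rfl (by linarith)) (ii _ _ (by linarith) (by linarith))
  have e4 : (∫ x in A..(A + X), S x) + (∫ x in (A + X)..(A + X + b), S x) = ∫ x in A..(A + X + b), S x :=
    intervalIntegral.integral_add_adjacent_intervals (ii _ _ le_rfl (by linarith)) (ii _ _ (by linarith) (by linarith))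
  have b1 : |∫ x in A..(A + b), S x| ≤ B * (b + 1) * b := by
    have h := intervalIntegral.norm_integral_le_of_norm_le_const (a := A) (b := A + b) (f := S) (C := B * (b + 1)) (by
      intro x hx
      rw [Set.uIoc_of_le (by linarith)] at hx
      rw [Real.norm_eq_abs]
      exact (hSb0 x hx.1.le).trans (mul_le_mul_of_nonneg_left (by linarith [hx.2]) hB))
    rw [Real.norm_eq_abs, show A + b - A = b by ring, abs_of_nonneg hb] at h
    exact h
  have b2 : |(∫ x in (A + X)..(A + X + b), S x) - b * S (A + X)| ≤ B * (b + 1) * b := by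
    have e5 : (∫ x in (A + X)..(A + X + b), S x) - b * S (A + X) = ∫ x in (A + X)..(A + X + b), (S x - S (A + X)) := by
      rw [intervalIntegral.integral_sub (ii _ _ (by linarith) (by linarith)) intervalIntegrable_const,
        intervalIntegral.integral_const, smul_eq_mul, show A + X + b - (A + X) = b by ring]
    rw [e5]
    have h := intervalIntegral.norm_integral_le_of_norm_le_const (a := A + X) (b := A + X + b)
      (f := fun x => S x - S (A + X)) (C := B * (b + 1)) (by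
      intro x hx
      rw [Set.uIoc_of_le (by linarith)] at hx
      rw [Real.norm_eq_abs]
      exact (hSb (A + X) x (by linarith) hx.1.le).trans (mul_le_mul_of_nonneg_left (by linarith [hx.2]) hB))
    rw [Real.norm_eq_abs, show A + X + b - (A + X) = b by ring, abs_of_nonneg hb] at h
    exact h
  have e6 : ∑ n ∈ Finset.Ico ⌈A⌉ ⌈A + X⌉, G n = S (A + X) := by rw [hS]
  rw [e1, e2, e6]
  have e7 : (∫ x in (A + b)..(A + X + b), S x) - (∫ x in A..(A + X), S x) - b * S (A + X) =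
    ((∫ x in (A + X)..(A + X + b), S x) - b * S (A + X)) - ∫ x in A..(A + b), S x := by linarith
  rw [e7]
  have := abs_sub ((∫ x in (A + X)..(A + X + b), S x) - b * S (A + X)) (∫ x in A..(A + b), S x)
  linarith

/-- number of the bad shifts at `n` -/
noncomputable def HH (k D R : ℕ) (n : ℤ) : ℝ := ∑ r ∈ Finset.Icc (-(R : ℤ)) R, id1 (rn stP k (0, r) (3 ^ D * n) ≠ (0, 0))

theorem HH_nonneg (k D R : ℕ) (n : ℤ) : 0 ≤ HH k D R n := sum_nonneg fun _ _ => id1_nonneg _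

theorem HH_le (k D R : ℕ) (n : ℤ) : HH k D R n ≤ 2 * R + 1 := by
  unfold HH
  refine (sum_le_sum (fun r _ => id1_le_one _)).trans ?_
  rw [sum_const, Int.card_Icc, nsmul_eq_mul, mul_one]
  have : ((R : ℤ) + 1 - -(R : ℤ)).toNat = 2 * R + 1 := by omega
  rw [this]; push_cast; exact le_rfl

theorem HH_sum {k D R : ℕ} {κ X η : ℝ} (hX : 1 ≤ X) (hk : (2 : ℝ) ^ k ≤ X)
    (h : ∀ r : ℤ, |r| ≤ R → ns k (0, r) ≤ η) :
    ∑ n ∈ Finset.Ico ⌈κ * X⌉ ⌈κ * X + X⌉, HH k D R n ≤ (2 * R + 1) * (3 * X * η) := by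
  unfold HH
  rw [sum_comm]
  have : ∀ r ∈ Finset.Icc (-(R : ℤ)) R, ∑ n ∈ Finset.Ico ⌈κ * X⌉ ⌈κ * X + X⌉, id1 (rn stP k (0, r) (3 ^ D * n) ≠ (0, 0)) ≤
      3 * X * η := by
    intro r hr
    rw [Finset.mem_Icc] at hr
    have b2 := bad_sum (per_mul (Pool.Agent.J4H39.per_ns k (0, r)) D) (κ := κ) hX hk
    rw [pb_mul (Pool.Agent.J4H39.per_ns k (0, r)) D] at b2
    have c2 : 3 * X * pb k (fun y => rn stP k (0, r) y ≠ (0, 0)) ≤ 3 * X * η :=
      mul_le_mul_of_nonneg_left (h r (by rw [abs_le]; exact hr)) (by positivity)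
    linarith
  refine (sum_le_sum this).trans ?_
  rw [sum_const, Int.card_Icc, nsmul_eq_mul]
  have : ((R : ℤ) + 1 - -(R : ℤ)).toNat = 2 * R + 1 := by omega
  rw [this]; push_cast; exact le_rfl

/-- pointwise comparison -/
theorem Ph_prod {f g : ℤ → ℝ} (hf : Iv f) (hg : Iv g) (k D R : ℕ) {x b : ℝ} (hb : 1 ≤ b) (hR : 3 ^ D * b < R + 1) :
    |Ph f x b * Ph g (3 ^ D * x) (3 ^ D * b) - (∑ n ∈ Finset.Ico ⌈x⌉ ⌈x + b⌉, f n * g (3 ^ D * n)) / b| ≤
      2 / b + 2 / (3 ^ D * b ^ 2) * ∑ n ∈ Finset.Ico ⌈x⌉ ⌈x + b⌉, HH k D R n := by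
  have hq : (0 : ℝ) < 3 ^ D := by positivity
  have hq1 : (1 : ℝ) ≤ 3 ^ D := one_le_pow₀ (by norm_num)
  have hb0 : 0 < b := by linarith
  have hqb : 1 ≤ 3 ^ D * b := by nlinarith
  unfold Ph
  rw [max_eq_left hb, max_eq_left hqb]
  set A := Finset.Ico ⌈x⌉ ⌈x + b⌉ with hA
  set Bx := Finset.Ico ⌈3 ^ D * x⌉ ⌈3 ^ D * x + 3 ^ D * b⌉ with hBx
  have cA : (#A : ℝ) ≤ 2 * b := by
    have h1 := Int.ceil_lt_add_one (x + b)
    have h2 := Int.le_ceil x
    have h3 : ⌈x⌉ ≤ ⌈x + b⌉ := Int.ceil_mono (by linarith)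
    have h4 : (#A : ℝ) = (⌈x + b⌉ : ℝ) - ⌈x⌉ := by
      rw [hA, Int.card_Ico]
      have : (((⌈x + b⌉ - ⌈x⌉).toNat : ℕ) : ℤ) = ⌈x + b⌉ - ⌈x⌉ := Int.toNat_of_nonneg (by omega)
      exact_mod_cast this
    rw [h4]; linarith
  have cB : |(#Bx : ℝ) - 3 ^ D * b| ≤ 1 := by
    have h1 := Int.ceil_lt_add_one (3 ^ D * x + 3 ^ D * b)
    have h2 := Int.le_ceil (3 ^ D * x)
    have h1' := Int.ceil_lt_add_one (3 ^ D * x)
    have h2' := Int.le_ceil (3 ^ D * x + 3 ^ D * b)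
    have h3 : ⌈3 ^ D * x⌉ ≤ ⌈3 ^ D * x + 3 ^ D * b⌉ := Int.ceil_mono (by linarith)
    have h4 : (#Bx : ℝ) = (⌈3 ^ D * x + 3 ^ D * b⌉ : ℝ) - ⌈3 ^ D * x⌉ := by
      rw [hBx, Int.card_Ico]
      have : (((⌈3 ^ D * x + 3 ^ D * b⌉ - ⌈3 ^ D * x⌉).toNat : ℕ) : ℤ) = ⌈3 ^ D * x + 3 ^ D * b⌉ - ⌈3 ^ D * x⌉ :=
        Int.toNat_of_nonneg (by omega)
      exact_mod_cast this
    rw [h4, abs_le]
    constructor <;> linarith
  have e1 : (∑ n ∈ A, f n) / b * ((∑ n ∈ Bx, g n) / (3 ^ D * b)) - (∑ n ∈ A, f n * g (3 ^ D * n)) / b =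
      (∑ n ∈ A, (∑ m ∈ Bx, (f n * g m - f n * g (3 ^ D * n)) + (#Bx - 3 ^ D * b) * (f n * g (3 ^ D * n)))) / (3 ^ D * b ^ 2) := by
    rw [sum_add_distrib]
    have h1 : ∀ n ∈ A, ∑ m ∈ Bx, (f n * g m - f n * g (3 ^ D * n)) = f n * ∑ m ∈ Bx, g m - #Bx * (f n * g (3 ^ D * n)) := by
      intro n _
      rw [sum_sub_distrib, sum_const, nsmul_eq_mul, mul_sum]
    rw [sum_congr rfl h1, sum_sub_distrib, ← sum_mul, ← mul_sum, ← mul_sum]
    field_simp
    ring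
  rw [e1, abs_div, abs_of_pos (by positivity : (0 : ℝ) < 3 ^ D * b ^ 2)]
  have b1 : ∀ a c : ℤ, |f a * g c| ≤ 1 := by
    intro a c
    rw [abs_mul]
    exact mul_le_one₀ (hf.bd a) (abs_nonneg _) (hg.bd c)
  have h2 : ∀ n ∈ A, |∑ m ∈ Bx, (f n * g m - f n * g (3 ^ D * n)) + (#Bx - 3 ^ D * b) * (f n * g (3 ^ D * n))| ≤
      2 * HH k D R n + 1 := by
    intro n hn
    rw [hA, Finset.mem_Ico] at hn
    have hn1 : x ≤ n := by
      have := Int.le_ceil x
      have h : (⌈x⌉ : ℝ) ≤ n := by exact_mod_cast hn.1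
      linarith
    have hn2 : (n : ℝ) < x + b := by
      have := hn.2
      rwa [Int.lt_ceil] at this
    refine (abs_add_le _ _).trans (add_le_add ?_ ?_)
    · refine (abs_sum_le_sum_abs _ _).trans ?_
      have h3 : ∀ m ∈ Bx, |f n * g m - f n * g (3 ^ D * n)| ≤ 2 * id1 (rn stP k (0, m - 3 ^ D * n) (3 ^ D * n) ≠ (0, 0)) := by
        intro m _
        have hrel := Pool.Agent.J4H39.rel_nat 0 (m - 3 ^ D * n) (3 ^ D * n)
        rw [pow_zero, one_mul, add_sub_cancel] at hrel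
        by_cases c : rn stP k (0, m - 3 ^ D * n) (3 ^ D * n) = (0, 0)
        · rw [Iv_merge hg hrel c, sub_self, abs_zero]
          have := id1_nonneg (rn stP k (0, m - 3 ^ D * n) (3 ^ D * n) ≠ (0, 0))
          positivity
        · rw [id1_pos (P := rn stP k (0, m - 3 ^ D * n) (3 ^ D * n) ≠ (0, 0)) c]
          have := abs_sub (f n * g m) (f n * g (3 ^ D * n))
          have := b1 n m
          have := b1 n (3 ^ D * n)
          linarith
      refine (sum_le_sum h3).trans ?_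
      rw [← mul_sum]
      apply mul_le_mul_of_nonneg_left _ (by norm_num)
      unfold HH
      have h4 : ∑ m ∈ Bx, id1 (rn stP k (0, m - 3 ^ D * n) (3 ^ D * n) ≠ (0, 0)) =
          ∑ r ∈ Bx.image (fun m => m - 3 ^ D * n), id1 (rn stP k (0, r) (3 ^ D * n) ≠ (0, 0)) := by
        rw [sum_image]
        intro m _ m' _ h
        simp only at h
        linarith
      rw [h4]
      apply sum_le_sum_of_subset_of_nonneg
      · intro r hr
        rw [Finset.mem_image] at hr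
        obtain ⟨m, hm, rfl⟩ := hr
        rw [hBx, Finset.mem_Ico] at hm
        have hm1 : 3 ^ D * x ≤ m := by
          have := Int.le_ceil (3 ^ D * x)
          have h : (⌈3 ^ D * x⌉ : ℝ) ≤ m := by exact_mod_cast hm.1
          linarith
        have hm2 : (m : ℝ) < 3 ^ D * x + 3 ^ D * b := by
          have := hm.2
          rwa [Int.lt_ceil] at this
        have l1 : (3 : ℝ) ^ D * x ≤ 3 ^ D * n := by gcongr
        have l2 : (3 : ℝ) ^ D * n < 3 ^ D * (x + b) := by gcongr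
        have l3 : (m : ℝ) - 3 ^ D * n < R + 1 := by nlinarith
        have l4 : -((R : ℝ) + 1) < (m : ℝ) - 3 ^ D * n := by nlinarith
        have l3' : m - 3 ^ D * n < R + 1 := by exact_mod_cast l3
        have l4' : -((R : ℤ) + 1) < m - 3 ^ D * n := by exact_mod_cast l4
        rw [Finset.mem_Icc]
        constructor <;> linarith
      · intro r _ _
        exact id1_nonneg _
    · rw [abs_mul]
      exact mul_le_one₀ cB (abs_nonneg _) (b1 _ _)
  have h5 : |∑ n ∈ A, (∑ m ∈ Bx, (f n * g m - f n * g (3 ^ D * n)) + (#Bx - 3 ^ D * b) * (f n * g (3 ^ D * n)))| ≤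
      2 * ∑ n ∈ A, HH k D R n + 2 * b := by
    refine (abs_sum_le_sum_abs _ _).trans ((sum_le_sum h2).trans ?_)
    rw [sum_add_distrib, ← mul_sum, sum_const, nsmul_eq_mul, mul_one]
    linarith
  calc _ ≤ (2 * ∑ n ∈ A, HH k D R n + 2 * b) / (3 ^ D * b ^ 2) := by gcongr
    _ = 2 / (3 ^ D * b ^ 2) * ∑ n ∈ A, HH k D R n + (2 / b) * (1 / 3 ^ D) := by field_simp
    _ ≤ 2 / (3 ^ D * b ^ 2) * ∑ n ∈ A, HH k D R n + (2 / b) * 1 := by
        gcongr
        rw [div_le_one hq]; exact hq1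
    _ = _ := by ring

theorem meas_Ph (f : ℤ → ℝ) (a : ℝ) : Measurable (fun x => Ph f x a) := (meas_win f a).div_const _

theorem gam_bound {f g : ℤ → ℝ} (hf : Iv f) (hg : Iv g) {k D R : ℕ} {κ X b η : ℝ} (hX : 1 ≤ X) (hk : (2 : ℝ) ^ k ≤ X)
    (hb : 1 ≤ b) (hR : 3 ^ D * b < R + 1) (hR2 : (R : ℝ) ≤ 3 ^ D * b) (h : ∀ r : ℤ, |r| ≤ R → ns k (0, r) ≤ η) :
    |GG f g κ b X D - cc f g κ X D 0| ≤ 2 / b + 18 * η + 14 * (b + 1) / X := by
  have hq : (0 : ℝ) < 3 ^ D := by positivity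
  have hq1 : (1 : ℝ) ≤ 3 ^ D := one_le_pow₀ (by norm_num)
  have hb0 : 0 < b := by linarith
  have hX0 : 0 < X := by linarith
  have b1 : ∀ a c : ℤ, |f a * g c| ≤ 1 := by
    intro a c
    rw [abs_mul]
    exact mul_le_one₀ (hf.bd a) (abs_nonneg _) (hg.bd c)
  unfold GG cc
  simp only [add_zero]
  rw [max_eq_left hX, ← sub_div, abs_div, abs_of_pos hX0, div_le_iff₀ hX0]
  -- integrability
  have i1 : IntervalIntegrable (fun x => Ph f x b * Ph g (3 ^ D * x) (3 ^ D * b)) volume (κ * X) (κ * X + X) := by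
    refine ii_bdd (M := 4) ((meas_Ph f b).mul ((meas_Ph g (3 ^ D * b)).comp (measurable_const_mul _))) (by linarith) ?_
    · intro x _ _
      have c1 : ∀ (f' : ℤ → ℝ) (hf' : Iv f') (x' b' : ℝ), 1 ≤ b' → |Ph f' x' b'| ≤ 2 := by
        intro f' hf' x' b' hb'
        unfold Ph
        rw [max_eq_left hb', abs_div, abs_of_pos (by linarith : 0 < b'), div_le_iff₀ (by linarith)]
        have := win_bd zero_le_one hf'.bd (x := x') (b := b') (by linarith)
        linarith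
      change |Ph f x b * Ph g (3 ^ D * x) (3 ^ D * b)| ≤ 4
      rw [abs_mul]
      have c2 := c1 f hf x b hb
      have c3 := c1 g hg (3 ^ D * x) (3 ^ D * b) (by nlinarith)
      nlinarith [abs_nonneg (Ph f x b), abs_nonneg (Ph g (3 ^ D * x) (3 ^ D * b))]
  have i2 : IntervalIntegrable (fun x => (∑ n ∈ Finset.Ico ⌈x⌉ ⌈x + b⌉, f n * g (3 ^ D * n)) / b) volume (κ * X) (κ * X + X) := by
    apply ii_bdd (M := (b + 1) / b) ((meas_win _ b).div_const _) (by linarith)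
    intro x _ _
    rw [abs_div, abs_of_pos hb0]
    gcongr
    have := win_bd zero_le_one (fun n => b1 n (3 ^ D * n)) (x := x) (b := b) (by linarith)
    linarith
  have i3 : IntervalIntegrable (fun x => ∑ n ∈ Finset.Ico ⌈x⌉ ⌈x + b⌉, HH k D R n) volume (κ * X) (κ * X + X) := by
    apply ii_bdd (M := (2 * R + 1) * (b + 1)) (meas_win _ b) (by linarith)
    intro x _ _
    exact win_bd (by positivity) (fun n => by rw [abs_of_nonneg (HH_nonneg _ _ _ _)]; exact HH_le k D R n) (by linarith)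
  have i4 : IntervalIntegrable (fun x => 2 / b + 2 / (3 ^ D * b ^ 2) * ∑ n ∈ Finset.Ico ⌈x⌉ ⌈x + b⌉, HH k D R n) volume
      (κ * X) (κ * X + X) := intervalIntegrable_const.add (i3.const_mul _)
  -- the difference of the integrals
  have d1 : |(∫ x in (κ * X)..(κ * X + X), Ph f x b * Ph g (3 ^ D * x) (3 ^ D * b)) -
      ∫ x in (κ * X)..(κ * X + X), (∑ n ∈ Finset.Ico ⌈x⌉ ⌈x + b⌉, f n * g (3 ^ D * n)) / b| ≤
      ∫ x in (κ * X)..(κ * X + X), (2 / b + 2 / (3 ^ D * b ^ 2) * ∑ n ∈ Finset.Ico ⌈x⌉ ⌈x + b⌉, HH k D R n) := by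
    rw [← intervalIntegral.integral_sub i1 i2]
    refine (intervalIntegral.abs_integral_le_integral_abs (by linarith)).trans ?_
    apply intervalIntegral.integral_mono_on (by linarith) (i1.sub i2).abs i4
    intro x _
    exact Ph_prod hf hg k D R hb hR
  have d2 : (∫ x in (κ * X)..(κ * X + X), (2 / b + 2 / (3 ^ D * b ^ 2) * ∑ n ∈ Finset.Ico ⌈x⌉ ⌈x + b⌉, HH k D R n)) =
      2 / b * X + 2 / (3 ^ D * b ^ 2) * ∫ x in (κ * X)..(κ * X + X), ∑ n ∈ Finset.Ico ⌈x⌉ ⌈x + b⌉, HH k D R n := by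
    rw [intervalIntegral.integral_add intervalIntegrable_const (i3.const_mul _), intervalIntegral.integral_const,
      intervalIntegral.integral_const_mul, smul_eq_mul, show κ * X + X - κ * X = X by ring]
    ring
  have d3 := avg_shift (G := HH k D R) (B := 2 * R + 1) (by positivity)
    (fun n => by rw [abs_of_nonneg (HH_nonneg _ _ _ _)]; exact HH_le k D R n) (A := κ * X) (X := X) (b := b) hX0.le hb0.le
  have d4 := HH_sum (D := D) (κ := κ) hX hk h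
  have d5 := avg_shift (G := fun n => f n * g (3 ^ D * n)) (B := 1) zero_le_one (fun n => b1 n (3 ^ D * n)) (A := κ * X)
    (X := X) (b := b) hX0.le hb0.le
  have hη : 0 ≤ η := (Pool.Agent.J4H39.pb_nonneg _ _).trans (h 0 (by simp))
  have d6 : (∫ x in (κ * X)..(κ * X + X), ∑ n ∈ Finset.Ico ⌈x⌉ ⌈x + b⌉, HH k D R n) ≤
      3 ^ D * b * 3 * (b * (3 * X * η) + 2 * ((b + 1) * b)) := by
    have a1 := (abs_le.1 d3).2
    have a2 : b * ∑ n ∈ Finset.Ico ⌈κ * X⌉ ⌈κ * X + X⌉, HH k D R n ≤ b * ((2 * R + 1) * (3 * X * η)) := by gcongr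
    have a3 : (2 * (R : ℝ) + 1) ≤ 3 ^ D * b * 3 := by nlinarith
    have a4 : (2 * (R : ℝ) + 1) * (b * (3 * X * η) + 2 * ((b + 1) * b)) ≤
      3 ^ D * b * 3 * (b * (3 * X * η) + 2 * ((b + 1) * b)) := by gcongr
    nlinarith
  have d7 : 2 / (3 ^ D * b ^ 2) * (3 ^ D * b * 3 * (b * (3 * X * η) + 2 * ((b + 1) * b))) = 18 * η * X + 12 * (b + 1) := by
    field_simp
    ring
  have d8 : 2 / (3 ^ D * b ^ 2) * (∫ x in (κ * X)..(κ * X + X), ∑ n ∈ Finset.Ico ⌈x⌉ ⌈x + b⌉, HH k D R n) ≤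
      18 * η * X + 12 * (b + 1) := by
    rw [← d7]; gcongr
  have d9 : |(∫ x in (κ * X)..(κ * X + X), (∑ n ∈ Finset.Ico ⌈x⌉ ⌈x + b⌉, f n * g (3 ^ D * n)) / b) -
      ∑ n ∈ Finset.Ico ⌈κ * X⌉ ⌈κ * X + X⌉, f n * g (3 ^ D * n)| ≤ 2 * (b + 1) := by
    rw [intervalIntegral.integral_div]
    have e : (∫ x in (κ * X)..(κ * X + X), ∑ n ∈ Finset.Ico ⌈x⌉ ⌈x + b⌉, f n * g (3 ^ D * n)) / b -
      ∑ n ∈ Finset.Ico ⌈κ * X⌉ ⌈κ * X + X⌉, f n * g (3 ^ D * n) =
      ((∫ x in (κ * X)..(κ * X + X), ∑ n ∈ Finset.Ico ⌈x⌉ ⌈x + b⌉, f n * g (3 ^ D * n)) -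
      b * ∑ n ∈ Finset.Ico ⌈κ * X⌉ ⌈κ * X + X⌉, f n * g (3 ^ D * n)) / b := by field_simp
    rw [e, abs_div, abs_of_pos hb0, div_le_iff₀ hb0]
    linarith
  have d10 := abs_sub_le (∫ x in (κ * X)..(κ * X + X), Ph f x b * Ph g (3 ^ D * x) (3 ^ D * b))
    (∫ x in (κ * X)..(κ * X + X), (∑ n ∈ Finset.Ico ⌈x⌉ ⌈x + b⌉, f n * g (3 ^ D * n)) / b)
    (∑ n ∈ Finset.Ico ⌈κ * X⌉ ⌈κ * X + X⌉, f n * g (3 ^ D * n))
  have d11 : (2 / b + 18 * η + 14 * (b + 1) / X) * X = 2 / b * X + 18 * η * X + 14 * (b + 1) := by field_simp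
  rw [d11]
  linarith

theorem t_GAM : S_GAM := by
  obtain ⟨C, hC, hrate⟩ := Pool.Agent.J4H39.ns_rate
  refine ⟨2 + 18 * (27 * C) + 28, by positivity, ?_⟩
  filter_upwards [eventually_ge_atTop 2] with w hw
  intro f g hf hg κ X b hκ hX hb hb2 D hD
  have hw1 : (1 : ℝ) ≤ w := by exact_mod_cast (by omega : 1 ≤ w)
  have hw2 : (2 : ℝ) ≤ w := by exact_mod_cast hw
  have hw0 : (0 : ℝ) < w := by linarith
  have hr := rho_le (w := w) (by omega)
  have hr0 := rho_nonneg (w ^ 80)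
  have hk1 : 1 ≤ w ^ 80 := Nat.one_le_pow _ _ (by omega)
  have hX1 : 1 ≤ X := le_trans (one_le_pow₀ (by norm_num)) hX
  have hb1 : 1 ≤ b := le_trans (one_le_pow₀ hw1) hb
  have hq : (0 : ℝ) < 3 ^ D := by positivity
  have hqb : 0 ≤ 3 ^ D * b := by positivity
  have n1 : ∀ r : ℤ, |r| ≤ ((⌊3 ^ D * b⌋₊ : ℕ) : ℤ) → ns (w ^ 80) (0, r) ≤ C * (3 * (w : ℝ) ^ 27) * (9 / (w : ℝ) ^ 39) := by
    intro r hr'
    have h1 : |(r : ℝ)| ≤ 4 ^ (2 * w ^ 54) := by
      have h2 : |(r : ℝ)| ≤ (⌊3 ^ D * b⌋₊ : ℕ) := by exact_mod_cast hr'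
      have h3 := Nat.floor_le hqb
      calc |(r : ℝ)| ≤ 3 ^ D * b := h2.trans h3
        _ ≤ 4 ^ (w ^ 54) * 4 ^ (w ^ 54) := by
            have h4 : (3 : ℝ) ^ D ≤ 4 ^ (w ^ 54) := by
              calc (3 : ℝ) ^ D ≤ 4 ^ D := pow_le_pow_left₀ (by norm_num) (by norm_num) _
                _ ≤ 4 ^ (w ^ 54) := pow_le_pow_right₀ (by norm_num)
                    (hD.trans (Nat.pow_le_pow_right (by omega) (by norm_num)))
            have h5 : b ≤ 4 ^ (w ^ 54) := hb2.trans (pow_le_pow_left₀ (by norm_num) (by norm_num) _)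
            exact mul_le_mul h4 h5 (by linarith) (by positivity)
        _ = 4 ^ (2 * w ^ 54) := by rw [← pow_add]; congr 1; ring
    refine (hrate (w ^ 80) hk1 0 (2 * w ^ 54) r h1).trans ?_
    have : √ (1 + ((0 : ℤ) : ℝ) ^ 2 + ((2 * w ^ 54 : ℕ) : ℝ)) ≤ 3 * (w : ℝ) ^ 27 := by
      rw [Real.sqrt_le_left (by positivity)]
      push_cast
      have e : ((w : ℝ) ^ 27) ^ 2 = (w : ℝ) ^ 54 := by ring
      have h1 : (1 : ℝ) ≤ (w : ℝ) ^ 54 := one_le_pow₀ hw1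
      nlinarith
    gcongr
  refine (gam_bound hf hg hX1 hX hb1 (Nat.lt_floor_add_one _) (Nat.floor_le hqb) n1).trans ?_
  have f1 : 2 / b ≤ 2 / w := by
    apply div_le_div_of_nonneg_left (by norm_num) hw0
    exact le_trans (le_self_pow₀ hw1 (by norm_num)) hb
  have f2 : C * (3 * (w : ℝ) ^ 27) * (9 / (w : ℝ) ^ 39) ≤ 27 * C / w := by
    rw [← mul_div_assoc, div_le_div_iff₀ (by positivity) (by positivity)]
    calc C * (3 * (w : ℝ) ^ 27) * 9 * w = 27 * C * (w : ℝ) ^ 28 := by ring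
      _ ≤ 27 * C * (w : ℝ) ^ 39 := by gcongr <;> norm_num
  have f3 : 14 * (b + 1) / X ≤ 28 / w := by
    rw [div_le_div_iff₀ (by linarith) hw0]
    have h1 : (w : ℝ) ≤ 2 ^ w := by exact_mod_cast Nat.lt_two_pow_self.le
    have h2 : w ^ 54 + w ≤ w ^ 80 := by
      calc w ^ 54 + w ≤ w ^ 54 + w ^ 54 := by
            gcongr
            exact Nat.le_self_pow (by norm_num) w
        _ = 2 * w ^ 54 := by ring
        _ ≤ w * w ^ 54 := by gcongr
        _ = w ^ 55 := by ring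
        _ ≤ w ^ 80 := Nat.pow_le_pow_right (by omega) (by norm_num)
    have h3 : b * w ≤ X := by
      calc b * w ≤ 2 ^ (w ^ 54) * 2 ^ w := by gcongr
        _ = 2 ^ (w ^ 54 + w) := by rw [pow_add]
        _ ≤ 2 ^ (w ^ 80) := pow_le_pow_right₀ (by norm_num) h2
        _ ≤ X := hX
    nlinarith
  calc _ ≤ 2 / (w : ℝ) + 18 * (27 * C / w) + 28 / w := by linarith
    _ = (2 + 18 * (27 * C) + 28) / w := by ring

end Pool.Agent.J4H95.PC
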